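import Pool.Agent.R391.FV.Half

set_option autoImplicit false
set_option linter.unusedSectionVars false

/-! # Limits -/

namespace Pool.Agent.R391.FV

open Finset Filter Topology

/-- the normalised count of rooted trees with given branches of total size `i` -/
noncomputable def bb (i n : ℕ) : ℝ := ((n.descFactorial i * nn (n - i) : ℕ) : ℝ) / (nn n : ℝ)

lemma bb_nonneg (i n : ℕ) : 0 ≤ bb i n := by unfold bb; positivity

lemma nn_pos {n : ℕ} (h : 1 ≤ n) : 0 < nn n := by
  obtain ⟨k, rfl⟩ : ∃ k, n = k + 1 := ⟨n - 1, by omega⟩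
  exact Nat.pow_pos (by omega)

lemma mul_nn (n : ℕ) (h : 1 ≤ n) : nn n * n = n ^ n := by
  obtain ⟨k, rfl⟩ : ∃ k, n = k + 1 := ⟨n - 1, by omega⟩
  show (k + 1) ^ k * (k + 1) = (k + 1) ^ (k + 1)
  rw [pow_succ]

lemma two_mul_pow_le (j : ℕ) (hj : 1 ≤ j) : 2 * j ^ j ≤ (j + 1) ^ j := by
  have h0 : (0 : ℝ) < j := by exact_mod_cast hj
  have h1 := one_add_mul_le_pow (a := 1 / (j : ℝ)) (by have : (0 : ℝ) ≤ 1 / j := by positivity
                                                       linarith) j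
  have h2 : (2 : ℝ) ≤ (1 + 1 / (j : ℝ)) ^ j := by
    have : (j : ℝ) * (1 / j) = 1 := by field_simp
    linarith
  have h3 : (1 + 1 / (j : ℝ)) ^ j * (j : ℝ) ^ j = ((j : ℝ) + 1) ^ j := by
    rw [← mul_pow]
    congr 1
    field_simp
  have h4 : (2 : ℝ) * (j : ℝ) ^ j ≤ ((j : ℝ) + 1) ^ j := by
    rw [← h3]
    exact mul_le_mul_of_nonneg_right h2 (by positivity)
  exact_mod_cast h4

lemma key_ineq (n : ℕ) : ∀ i, i < n → n.descFactorial i * (n - i) ^ (n - i) * 2 ^ i ≤ n ^ n := by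
  intro i
  induction i with
  | zero => intro _; simp
  | succ i ih =>
    intro hi
    have h1 := ih (by omega)
    obtain ⟨j, hj⟩ : ∃ j, n - i = j + 1 := ⟨n - i - 1, by omega⟩
    have hj' : n - (i + 1) = j := by omega
    have hj1 : 1 ≤ j := by omega
    rw [Nat.descFactorial_succ, hj', hj]
    rw [hj] at h1
    have h2 := two_mul_pow_le j hj1
    calc (j + 1) * n.descFactorial i * j ^ j * 2 ^ (i + 1)
        = n.descFactorial i * ((j + 1) * (2 * j ^ j)) * 2 ^ i := by ring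
      _ ≤ n.descFactorial i * ((j + 1) * (j + 1) ^ j) * 2 ^ i := by gcongr
      _ = n.descFactorial i * (j + 1) ^ (j + 1) * 2 ^ i := by ring
      _ ≤ n ^ n := h1

lemma bb_zero {i n : ℕ} (h : n ≤ i) : bb i n = 0 := by
  unfold bb
  rw [Nat.sub_eq_zero_of_le h]
  simp [nn]

lemma bb_le (i n : ℕ) : bb i n ≤ (i + 1) / 2 ^ i := by
  rcases Nat.lt_or_ge i n with h | h
  · have h1 := key_ineq n i h
    have h2 := mul_nn n (by omega)
    have h3 := mul_nn (n - i) (by omega)
    have hn : (0 : ℝ) < nn n := by exact_mod_cast nn_pos (by omega : 1 ≤ n)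
    unfold bb
    rw [div_le_div_iff₀ hn (by positivity)]
    have h4 : ((n - i : ℕ) : ℝ) * n * (n.descFactorial i * nn (n - i) * 2 ^ i) ≤
        ((n - i : ℕ) : ℝ) * n * ((i + 1) * nn n) := by
      have h5 : n * (n.descFactorial i * (n - i) ^ (n - i) * 2 ^ i) ≤ n * n ^ n :=
        Nat.mul_le_mul_left _ h1
      have h6 : n ≤ (i + 1) * (n - i) := by
        obtain ⟨d, rfl⟩ : ∃ d, n = i + 1 + d := ⟨n - i - 1, by omega⟩
        have : i + 1 + d - i = d + 1 := by omega
        rw [this]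
        nlinarith
      have h7 : n * n ^ n ≤ (i + 1) * (n - i) * n ^ n := Nat.mul_le_mul_right _ h6
      rw [← h2] at h7
      rw [← h3] at h5
      rw [← h2] at h5
      have h8 := h5.trans h7
      have h9 : (n - i) * n * (n.descFactorial i * nn (n - i) * 2 ^ i) ≤
          (n - i) * n * ((i + 1) * nn n) := by
        calc (n - i) * n * (n.descFactorial i * nn (n - i) * 2 ^ i)
            = n * (n.descFactorial i * (nn (n - i) * (n - i)) * 2 ^ i) := by ring
          _ ≤ (i + 1) * (n - i) * (nn n * n) := h8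
          _ = _ := by ring
      exact_mod_cast h9
    have h5 : (0 : ℝ) < ((n - i : ℕ) : ℝ) * n := by
      have a1 : (0 : ℝ) < ((n - i : ℕ) : ℝ) := by exact_mod_cast (by omega : 0 < n - i)
      have a2 : (0 : ℝ) < (n : ℝ) := by exact_mod_cast (by omega : 0 < n)
      positivity
    have h6 := le_of_mul_le_mul_left h4 h5
    push_cast
    exact h6
  · rw [bb_zero h]
    positivity

lemma bb_le_one (i n : ℕ) : bb i n ≤ 1 := by
  refine (bb_le i n).trans ?_
  rw [div_le_one (by positivity)]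
  have : i + 1 ≤ 2 ^ i := Nat.lt_two_pow_self
  exact_mod_cast this

lemma desc_tendsto (i : ℕ) :
    Tendsto (fun n : ℕ => (n.descFactorial i : ℝ) / (n : ℝ) ^ i) atTop (𝓝 1) := by
  induction i with
  | zero => simp
  | succ i ih =>
    have h1 : Tendsto (fun n : ℕ => 1 - (i : ℝ) / n) atTop (𝓝 (1 - 0)) :=
      tendsto_const_nhds.sub (tendsto_const_div_atTop_nhds_zero_nat _)
    have h2 := h1.mul ih
    rw [sub_zero, one_mul] at h2
    refine h2.congr' ?_
    filter_upwards [eventually_gt_atTop i] with n hn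
    have hn0 : (n : ℝ) ≠ 0 := by
      have : n ≠ 0 := by omega
      exact_mod_cast this
    rw [Nat.descFactorial_succ]
    push_cast [Nat.cast_sub hn.le]
    field_simp
    ring

lemma bb_tendsto (i : ℕ) : Tendsto (bb i) atTop (𝓝 (Real.exp (-(i : ℝ)))) := by
  have h1 := Real.tendsto_one_add_div_pow_exp (-(i : ℝ))
  have h2 : Tendsto (fun n : ℕ => (1 + (-(i : ℝ)) / n) ^ (i + 1)) atTop (𝓝 ((1 + 0) ^ (i + 1))) :=
    (tendsto_const_nhds.add (tendsto_const_div_atTop_nhds_zero_nat _)).pow _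
  rw [add_zero, one_pow] at h2
  have h3 := ((desc_tendsto i).mul h1).div h2 one_ne_zero
  rw [one_mul, div_one] at h3
  refine h3.congr' ?_
  filter_upwards [eventually_gt_atTop i] with n hn
  obtain ⟨d, rfl⟩ : ∃ d, n = d + 1 + i := ⟨n - i - 1, by omega⟩
  have hn0 : (0 : ℝ) < ((d + 1 + i : ℕ) : ℝ) := by positivity
  have e1 : (1 + -(i : ℝ) / ((d + 1 + i : ℕ) : ℝ)) = ((d : ℝ) + 1) / ((d + 1 + i : ℕ) : ℝ) := by
    field_simp
    push_cast
    ring
  have e0 : (0 : ℝ) < ((d : ℝ) + 1) / ((d + 1 + i : ℕ) : ℝ) := by positivity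
  unfold bb
  have e2 : d + 1 + i - i = d + 1 := by omega
  have e3 : nn (d + 1) = (d + 1) ^ d := rfl
  have e4 : nn (d + 1 + i) = (d + 1 + i) ^ (d + i) := by
    have : d + 1 + i = (d + i) + 1 := by ring
    rw [this]
    rfl
  simp only [Pi.div_apply]
  rw [e2, e3, e4, e1]
  have e5 : (((d : ℝ) + 1) / ((d + 1 + i : ℕ) : ℝ)) ^ (d + 1 + i) =
      (((d : ℝ) + 1) / ((d + 1 + i : ℕ) : ℝ)) ^ d * (((d : ℝ) + 1) / ((d + 1 + i : ℕ) : ℝ)) ^ (i + 1) := by
    rw [← pow_add]
    congr 1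
    ring
  rw [e5]
  set N : ℝ := ((d + 1 + i : ℕ) : ℝ) with hN
  have hN2 : (((d + 1 + i) ^ (d + i) : ℕ) : ℝ) = N ^ (d + i) := by
    rw [hN]
    push_cast
    ring
  rw [hN2]
  push_cast
  have e6 : (((d : ℝ) + 1) / N) ^ (i + 1) ≠ 0 := by positivity
  rw [← mul_assoc, mul_div_assoc, div_self e6, mul_one, div_pow, pow_add]
  field_simp

lemma inner_hasSum (m : ℕ) (A : ℝ) (hA : 0 < A) :
    HasSum (fun j : ℕ => (-1 : ℝ) ^ j / ((j + 1).factorial * A ^ (j + 1)) *
      Real.exp (-(((j + 2) * m : ℕ) : ℝ)))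
      (Real.exp (-(m : ℝ)) * (1 - Real.exp (-(Real.exp (-(m : ℝ)) / A)))) := by
  set lam : ℝ := Real.exp (-(m : ℝ)) / A with hlam
  have h1 : HasSum (fun j : ℕ => (-lam) ^ j / (j.factorial : ℝ)) (Real.exp (-lam)) := by
    have := NormedSpace.expSeries_div_hasSum_exp (-lam)
    rwa [← Real.exp_eq_exp_ℝ] at this
  have h2 := (hasSum_nat_add_iff' 1).2 h1
  simp only [Finset.sum_range_one, pow_zero, Nat.factorial_zero, Nat.cast_one, div_one] at h2
  have h3 := h2.mul_left (-Real.exp (-(m : ℝ)))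
  have hv : Real.exp (-(m : ℝ)) * (1 - Real.exp (-lam)) =
      -Real.exp (-(m : ℝ)) * (Real.exp (-lam) - 1) := by ring
  have hf : (fun j : ℕ => (-1 : ℝ) ^ j / ((j + 1).factorial * A ^ (j + 1)) *
      Real.exp (-(((j + 2) * m : ℕ) : ℝ))) =
      fun j => -Real.exp (-(m : ℝ)) * ((-lam) ^ (j + 1) / ((j + 1).factorial : ℝ)) := by
    funext j
    have e1 : Real.exp (-(((j + 2) * m : ℕ) : ℝ)) = Real.exp (-(m : ℝ)) ^ (j + 2) := by
      rw [← Real.exp_nat_mul]
      congr 1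
      push_cast
      ring
    rw [e1, hlam]
    rw [neg_pow (Real.exp (-(m : ℝ)) / A), div_pow]
    have : ((j + 1).factorial : ℝ) ≠ 0 := by exact_mod_cast (Nat.factorial_pos _).ne'
    field_simp
    ring
  rw [hf, hv]
  exact h3

end Pool.Agent.R391.FV
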