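import Mathlib

set_option autoImplicit false
set_option linter.unusedSectionVars false

/-! # Branches of a finite tree -/

namespace Pool.Agent.R391.FV

variable {V : Type} [Fintype V] [DecidableEq V]

/-- `B` is the vertex set of the branch at `s` with root `u` of the graph `T`
(in a tree `T`: the component of `T - s` that contains the neighbour `u` of `s`). -/
structure Branch (T : SimpleGraph V) (s u : V) (B : Finset V) : Prop where
  mem : u ∈ B
  not_mem : s ∉ B
  adj : T.Adj u s
  cross : ∀ x ∈ B, ∀ y, y ∉ B → T.Adj x y → x = u ∧ y = s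

lemma cross_edge {T : SimpleGraph V} (hT : T.Connected) (P : V → Prop) {a b : V} (ha : P a)
    (hb : ¬ P b) : ∃ x y, P x ∧ ¬ P y ∧ T.Adj x y := by
  obtain ⟨p⟩ := hT.preconnected a b
  induction p with
  | nil => exact absurd ha hb
  | @cons u v w h p ih =>
    by_cases hv : P v
    · exact ih hv hb
    · exact ⟨u, v, ha, hv, h⟩

lemma Branch.conn {T : SimpleGraph V} (hT : T.Connected) {s u : V} {B : Finset V}
    (hB : Branch T s u B) (P : V → Prop) {z : V} (hz : z ∈ B) (hPz : P z)
    (hcl : ∀ x y, x ∈ B → y ∈ B → P x → T.Adj x y → P y) : ∀ y ∈ B, P y := by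
  intro y hy
  by_contra hPy
  by_cases hu : P u
  · obtain ⟨a, b, ha, hb, hab⟩ := cross_edge hT (fun w => w ∈ B ∧ ¬ P w) (a := y) (b := u)
      ⟨hy, hPy⟩ (fun h => h.2 hu)
    by_cases hbB : b ∈ B
    · have hPb : P b := by
        by_contra h
        exact hb ⟨hbB, h⟩
      exact ha.2 (hcl b a hbB ha.1 hPb hab.symm)
    · have := (hB.cross a ha.1 b hbB hab).1
      exact ha.2 (this ▸ hu)
  · obtain ⟨a, b, ha, hb, hab⟩ := cross_edge hT (fun w => w ∈ B ∧ P w) (a := z) (b := u)
      ⟨hz, hPz⟩ (fun h => hu h.2)
    by_cases hbB : b ∈ B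
    · exact hb ⟨hbB, hcl a b ha.1 hbB ha.2 hab⟩
    · have := (hB.cross a ha.1 b hbB hab).1
      exact hu (this ▸ ha.2)

lemma Branch.laminar {T : SimpleGraph V} (hT : T.Connected) {s u s' u' : V} {B B' : Finset V}
    (hB : Branch T s u B) (hB' : Branch T s' u' B') {z : V} (hz : z ∈ B) (hz' : z ∈ B')
    {o : V} (ho : o ∉ B) (ho' : o ∉ B') : B ⊆ B' ∨ B' ⊆ B := by
  by_contra hcon
  push Not at hcon
  obtain ⟨h1, h2⟩ := hcon
  have key : ∀ {s u s' u' : V} {B B' : Finset V}, Branch T s u B → Branch T s' u' B' → z ∈ B →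
      z ∈ B' → ¬ B ⊆ B' → s' ∈ B := by
    intro s u s' u' B B' hB hB' hz hz' h
    by_contra hs'
    apply h
    apply hB.conn hT (fun w => w ∈ B') hz hz'
    intro x y hx hy hx' hxy
    by_contra hy'
    have := (hB'.cross x hx' y hy' hxy).2
    exact hs' (this ▸ hy)
  have hs' := key hB hB' hz hz' h1
  have hs := key hB' hB hz' hz h2
  obtain ⟨a, b, ha, hb, hab⟩ := cross_edge hT (fun w => w ∈ B ∨ w ∈ B') (a := z) (b := o)
      (Or.inl hz) (fun h => h.elim ho ho')
  rw [not_or] at hb
  rcases ha with ha | ha
  · have := (hB.cross a ha b hb.1 hab).2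
    exact hb.2 (this ▸ hs)
  · have := (hB'.cross a ha b hb.2 hab).2
    exact hb.1 (this ▸ hs')

/-- if two branches intersect, and the base point of the second one is not in the first,
then the first is contained in the second -/
lemma Branch.subset {T : SimpleGraph V} (hT : T.Connected) {s u s' u' : V} {B B' : Finset V}
    (hB : Branch T s u B) (hB' : Branch T s' u' B') {z : V} (hz : z ∈ B) (hz' : z ∈ B')
    (hs' : s' ∉ B) : B ⊆ B' := by
  apply hB.conn hT (fun w => w ∈ B') hz hz'
  intro x y hx hy hx' hxy
  by_contra hy'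
  have := (hB'.cross x hx' y hy' hxy).2
  exact hs' (this ▸ hy)

/-- the same with the root of the second branch -/
lemma Branch.subset' {T : SimpleGraph V} (hT : T.Connected) {s u s' u' : V} {B B' : Finset V}
    (hB : Branch T s u B) (hB' : Branch T s' u' B') {z : V} (hz : z ∈ B) (hz' : z ∈ B')
    (hu' : u' ∉ B) : B ⊆ B' := by
  apply hB.conn hT (fun w => w ∈ B') hz hz'
  intro x y hx hy hx' hxy
  by_contra hy'
  have := (hB'.cross x hx' y hy' hxy).1
  exact hu' (this ▸ hx)

lemma Branch.eq_of_same {T : SimpleGraph V} (hT : T.Connected) {s u u' : V} {B B' : Finset V}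
    (hB : Branch T s u B) (hB' : Branch T s u' B') {z : V} (hz : z ∈ B) (hz' : z ∈ B') :
    B = B' :=
  Finset.Subset.antisymm (hB.subset hT hB' hz hz' hB.not_mem)
    (hB'.subset hT hB hz' hz hB'.not_mem)

lemma Branch.unique {T : SimpleGraph V} {s u s' u' : V} {B : Finset V}
    (hB : Branch T s u B) (hB' : Branch T s' u' B) : u = u' ∧ s = s' :=
  hB'.cross u hB.mem s hB.not_mem hB.adj

/-- existence of branches in trees -/
lemma exists_branch {T : SimpleGraph V} (hT : T.IsTree) {s v : V} (h : s ≠ v) :
    ∃ u B, Branch T s u B ∧ v ∈ B := by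
  classical
  obtain ⟨p, hp⟩ := hT.connected.exists_isPath s v
  cases p with
  | nil => exact absurd rfl h
  | @cons _ u _ hu p =>
    rw [SimpleGraph.Walk.cons_isPath_iff] at hp
    refine ⟨u, Finset.univ.filter (fun x => ∃ q : T.Walk u x, s ∉ q.support), ?_, ?_⟩
    · refine ⟨?_, ?_, hu.symm, ?_⟩
      · simp only [Finset.mem_filter, Finset.mem_univ, true_and]
        exact ⟨SimpleGraph.Walk.nil, by simpa using hu.ne⟩
      · simp only [Finset.mem_filter, Finset.mem_univ, true_and, not_exists, not_not]
        intro q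
        exact q.end_mem_support
      · intro x hx y hy hxy
        simp only [Finset.mem_filter, Finset.mem_univ, true_and] at hx hy
        obtain ⟨q, hq⟩ := hx
        have hys : y = s := by
          by_contra hys
          apply hy
          refine ⟨q.concat hxy, ?_⟩
          rw [SimpleGraph.Walk.support_concat]
          simp only [List.mem_append, List.mem_singleton, not_or]
          exact ⟨hq, fun h => hys h.symm⟩
        refine ⟨?_, hys⟩
        subst hys
        have hq' : y ∉ q.bypass.support := fun h => hq (q.support_bypass_subset_support h)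
        have h1 : (q.bypass.concat hxy).IsPath :=
          (SimpleGraph.Walk.concat_isPath_iff hxy).2 ⟨q.bypass_isPath, hq'⟩
        have h2 : (SimpleGraph.Walk.cons hu.symm SimpleGraph.Walk.nil : T.Walk u y).IsPath := by
          simp [hu.ne']
        have h3 := (hT.isAcyclic.subsingleton_path u y).elim ⟨_, h1⟩ ⟨_, h2⟩
        have h4 := congrArg (fun w : T.Path u y => w.1.length) h3
        simp only [SimpleGraph.Walk.length_concat, SimpleGraph.Walk.length_cons,
          SimpleGraph.Walk.length_nil] at h4
        have h5 : q.bypass.length = 0 := by omega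
        exact (SimpleGraph.Walk.eq_of_length_eq_zero h5).symm
    · simp only [Finset.mem_filter, Finset.mem_univ, true_and]
      exact ⟨p, hp.2⟩

end Pool.Agent.R391.FV
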