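import Pool.Agent.R391.FV.Glue
import Pool.Agent.TH272.WH.Trees

set_option autoImplicit false
set_option linter.unusedSectionVars false

/-! # Counting labelled branches -/

namespace Pool.Agent.R391.FV

open Finset

/-- the number of rooted labelled trees -/
def nn : ℕ → ℕ
  | 0 => 0
  | j + 1 => (j + 1) ^ j

/-- Cayley's formula -/
lemma cayley (V : Type) [Fintype V] (h : 1 ≤ Fintype.card V) :
    Nat.card {T : SimpleGraph V // T.IsTree} = Fintype.card V ^ (Fintype.card V - 2) := by
  classical
  have h1 := Pool.Agent.TH272.WH.card_trees (V := V)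
  have h2 := Pool.Agent.W151.TreeIneq.tau_top (V := V) (Fintype.card V) univ card_univ h
  rw [h2] at h1
  exact h1

lemma tv_eq (V : Type) [Fintype V] : tv V = nn (Fintype.card V) := by
  classical
  have h1 : tv V = Nat.card {T : SimpleGraph V // T.IsTree} * Nat.card V := by
    unfold tv
    rw [← Nat.card_prod]
    apply Nat.card_congr
    exact ⟨fun p => (⟨p.1.1, p.2⟩, p.1.2), fun q => ⟨(q.1.1, q.2), q.1.2⟩, fun p => rfl,
      fun q => rfl⟩
  rw [h1, Nat.card_eq_fintype_card (α := V)]
  rcases Nat.eq_zero_or_pos (Fintype.card V) with h | h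
  · rw [h]
    simp [nn]
  · rw [cayley V h]
    obtain ⟨j, hj⟩ : ∃ j, Fintype.card V = j + 1 := ⟨Fintype.card V - 1, by omega⟩
    rw [hj]
    show (j + 1) ^ (j + 1 - 2) * (j + 1) = (j + 1) ^ j
    rcases j with _ | j
    · simp
    · rw [show j + 1 + 1 - 2 = j by omega, ← pow_succ]

section tuples

open Classical in
lemma card_tuples {X B : Type} [Fintype X] [Fintype B] [DecidableEq B] (F : Finset X) (p : X → B) (A : ℕ)
    (hA : ∀ b ∈ F.image p, (F.filter (fun x => p x = b)).card = A) (k : ℕ) :
    (univ.filter (fun φ : Fin k → X => (∀ i, φ i ∈ F) ∧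
      Function.Injective (fun i => p (φ i)))).card = (F.image p).card.descFactorial k * A ^ k := by
  have h0 : (univ.filter (fun ψ : Fin k → B => (∀ i, ψ i ∈ F.image p) ∧
      Function.Injective ψ)).card = (F.image p).card.descFactorial k := by
    have h1 : Fintype.card (Fin k ↪ (F.image p)) = (F.image p).card.descFactorial k := by
      rw [Fintype.card_embedding_eq, Fintype.card_coe, Fintype.card_fin]
    rw [← h1, ← Finset.card_univ]
    symm
    apply Finset.card_bij (fun (e : Fin k ↪ (F.image p)) _ => fun i => ((e i : F.image p) : B))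
    · intro e _
      simp only [mem_filter, mem_univ, true_and]
      exact ⟨fun i => (e i).2, fun i j h => e.injective (Subtype.ext h)⟩
    · intro e _ e' _ h
      ext i
      exact congrFun h i
    · intro ψ hψ
      simp only [mem_filter, mem_univ, true_and] at hψ
      exact ⟨⟨fun i => ⟨ψ i, hψ.1 i⟩, fun i j h => hψ.2 (congrArg Subtype.val h)⟩, mem_univ _, rfl⟩
  rw [← h0]
  rw [Finset.card_eq_sum_card_fiberwise (f := fun (φ : Fin k → X) (i : Fin k) => p (φ i))
    (t := univ.filter (fun ψ : Fin k → B => (∀ i, ψ i ∈ F.image p) ∧ Function.Injective ψ))]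
  · rw [Finset.sum_const_nat (m := A ^ k)]
    intro ψ hψ
    simp only [mem_filter, mem_univ, true_and] at hψ
    have h1 : {a ∈ univ.filter (fun φ : Fin k → X => (∀ i, φ i ∈ F) ∧
        Function.Injective (fun i => p (φ i))) | (fun i => p (a i)) = ψ} =
        Fintype.piFinset (fun i => F.filter (fun x => p x = ψ i)) := by
      ext φ
      simp only [mem_filter, mem_univ, true_and, Fintype.mem_piFinset]
      constructor
      · rintro ⟨⟨h1, h2⟩, h3⟩ i
        exact ⟨h1 i, congrFun h3 i⟩
      · intro h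
        have h3 : (fun i => p (φ i)) = ψ := funext fun i => (h i).2
        exact ⟨⟨fun i => (h i).1, by rw [h3]; exact hψ.2⟩, h3⟩
    rw [h1, Fintype.card_piFinset]
    rw [Finset.prod_congr rfl (fun i _ => hA (ψ i) (hψ.1 i))]
    simp
  · intro φ hφ
    simp only [coe_filter, mem_univ, true_and, Set.mem_ofPred_eq] at hφ ⊢
    exact ⟨fun i => mem_image_of_mem p (hφ.1 i), hφ.2⟩

end tuples

/-- the alternating sum which detects `N ≥ 2` -/
lemma alt_sum (N A K : ℕ) (hA : 1 ≤ A) (hK : N ≤ K) :
    (((if 2 ≤ N then A * N else 0 : ℕ)) : ℝ) = ∑ j ∈ range K, (-1 : ℝ) ^ j /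
      ((j + 1).factorial * (A : ℝ) ^ (j + 1)) * ((N.descFactorial (j + 2) * A ^ (j + 2) : ℕ) : ℝ) := by
  have hA' : (A : ℝ) ≠ 0 := by
    have : (0 : ℝ) < A := by exact_mod_cast hA
    exact this.ne'
  rcases N with _ | M
  · rw [if_neg (by omega)]
    simp
  · have h1 : ∀ j ∈ range K, (-1 : ℝ) ^ j /
      ((j + 1).factorial * (A : ℝ) ^ (j + 1)) * (((M + 1).descFactorial (j + 2) * A ^ (j + 2) : ℕ) : ℝ)
      = (A * (M + 1 : ℕ) : ℝ) * (- ((-1 : ℝ) ^ (j + 1) * (M.choose (j + 1) : ℝ))) := by
      intro j _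
      rw [Nat.succ_descFactorial_succ, Nat.descFactorial_eq_factorial_mul_choose]
      have : ((j + 1).factorial : ℝ) ≠ 0 := by exact_mod_cast (Nat.factorial_pos _).ne'
      push_cast
      field_simp
      ring
    rw [Finset.sum_congr rfl h1, ← Finset.mul_sum, Finset.sum_neg_distrib]
    have h2 : ∑ i ∈ range (K + 1), (-1 : ℝ) ^ i * (M.choose i : ℝ) = if M = 0 then 1 else 0 := by
      have h3 := Int.alternating_sum_range_choose (n := M)
      have h4 : ∑ i ∈ range (M + 1), (-1 : ℝ) ^ i * (M.choose i : ℝ) = if M = 0 then 1 else 0 := by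
        have := congrArg (Int.cast : ℤ → ℝ) h3
        push_cast at this
        exact this
      rw [← h4]
      symm
      apply Finset.sum_subset
      · intro x hx
        rw [mem_range] at hx ⊢
        omega
      · intro x _ hx
        rw [mem_range] at hx
        rw [Nat.choose_eq_zero_of_lt (by omega)]
        simp
    rw [Finset.sum_range_succ'] at h2
    simp only [pow_zero, Nat.choose_zero_right, Nat.cast_one, mul_one] at h2
    have h5 : ∑ i ∈ range K, (-1 : ℝ) ^ (i + 1) * (M.choose (i + 1) : ℝ) =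
        (if M = 0 then 1 else 0) - 1 := by linarith
    rw [h5]
    by_cases hM : M = 0
    · subst hM
      rw [if_neg (by omega)]
      simp
    · rw [if_pos (by omega)]
      simp [hM]

section main

variable {V : Type} [Fintype V] [DecidableEq V] {m : ℕ}

open Classical in
/-- the pairs (tree, vertex) -/
noncomputable def PP (V : Type) [Fintype V] [DecidableEq V] : Finset (SimpleGraph V × V) :=
  univ.filter (fun p => p.1.IsTree)

lemma mem_PP {p : SimpleGraph V × V} : p ∈ PP V ↔ p.1.IsTree := by simp [PP]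

lemma card_PP : (PP V).card = nn (Fintype.card V) := by
  classical
  rw [← tv_eq]
  unfold tv PP
  rw [Nat.card_eq_fintype_card, Fintype.card_subtype]

open Classical in
/-- the labelled branches -/
noncomputable def Fs (S : SimpleGraph (Fin m)) (r : Fin m) (p : SimpleGraph V × V) :
    Finset (Fin m → V) := univ.filter (fun f => IsBr p.1 p.2 S r f)

open Classical in
/-- the labelled branches with a twin -/
noncomputable def Gs (S : SimpleGraph (Fin m)) (r : Fin m) (p : SimpleGraph V × V) :
    Finset (Fin m → V) := univ.filter (fun f => IsBr p.1 p.2 S r f ∧ Tw p.1 p.2 S r f)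

/-- the branches -/
noncomputable def Bs (S : SimpleGraph (Fin m)) (r : Fin m) (p : SimpleGraph V × V) :
    Finset (Finset V) := (Fs S r p).image (fun f => univ.image f)

open Classical in
/-- tuples of labelled disjoint branches -/
noncomputable def Tup (S : SimpleGraph (Fin m)) (r : Fin m) (k : ℕ) (p : SimpleGraph V × V) :
    Finset (Fin k → Fin m → V) := univ.filter (fun φ => (∀ i, IsBr p.1 p.2 S r (φ i)) ∧ Dj φ)

/-- the number of automorphisms of the rooted tree -/
noncomputable def AA (S : SimpleGraph (Fin m)) (r : Fin m) : ℕ :=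
  Nat.card {α : S ≃g S // α r = r}

instance (S : SimpleGraph (Fin m)) : Finite (S ≃g S) :=
  Finite.of_injective (fun α : S ≃g S => (α : Fin m → Fin m)) (fun α β h => by
    ext a
    exact congrArg Fin.val (congrFun h a))

lemma AA_pos (S : SimpleGraph (Fin m)) (r : Fin m) : 1 ≤ AA S r := by
  have : Nonempty {α : S ≃g S // α r = r} := ⟨⟨RelIso.refl _, rfl⟩⟩
  exact Nat.card_pos

variable {S : SimpleGraph (Fin m)} {r : Fin m} {p : SimpleGraph V × V}

lemma mem_Fs {f : Fin m → V} : f ∈ Fs S r p ↔ IsBr p.1 p.2 S r f := by simp [Fs]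

lemma IsBr.comp {T : SimpleGraph V} {s : V} {f : Fin m → V} (hf : IsBr T s S r f)
    (α : S ≃g S) (hα : α r = r) : IsBr T s S r (fun a => f (α a)) := by
  refine ⟨fun a b h => α.injective (hf.inj h), fun a => hf.avoid _, ?_, ?_⟩
  · intro a b
    rw [hf.adj, α.map_adj_iff]
  · intro a x hx
    rw [hf.out (α a) x (fun b hb => hx (α.symm b) (by rw [α.apply_symm_apply]; exact hb))]
    constructor
    · rintro ⟨h1, h2⟩
      exact ⟨α.injective (h1.trans hα.symm), h2⟩
    · rintro ⟨h1, h2⟩
      exact ⟨by rw [h1, hα], h2⟩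

lemma comp_image (f : Fin m → V) (α : S ≃g S) :
    univ.image (fun a => f (α a)) = univ.image f := by
  ext x
  rw [mem_im, mem_im]
  constructor
  · rintro ⟨a, ha⟩
    exact ⟨α a, ha⟩
  · rintro ⟨a, ha⟩
    exact ⟨α.symm a, by rw [α.apply_symm_apply]; exact ha⟩

/-- two labellings of the same branch -/
lemma exists_aut {T : SimpleGraph V} {s : V} {f g : Fin m → V} (hf : IsBr T s S r f)
    (hg : IsBr T s S r g) (h : univ.image f = univ.image g) :
    ∃ α : S ≃g S, α r = r ∧ ∀ a, g (α a) = f a := by
  have h1 : ∀ a, ∃ b, g b = f a := by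
    intro a
    have := im_self f a
    rw [h] at this
    exact mem_im.1 this
  choose β hβ using h1
  have hinj : Function.Injective β := by
    intro a b hab
    apply hf.inj
    rw [← hβ a, ← hβ b, hab]
  have hbij : Function.Bijective β := Finite.injective_iff_bijective.1 hinj
  refine ⟨⟨Equiv.ofBijective β hbij, ?_⟩, ?_, hβ⟩
  · intro a b
    simp only [Equiv.ofBijective_apply]
    rw [← hg.adj, hβ, hβ, hf.adj]
  · show β r = r
    have h2 := hf.branch
    rw [h] at h2
    have h3 := (h2.unique hg.branch).1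
    apply hg.inj
    rw [hβ, h3]

open Classical in
lemma fiber_card (b : Finset V) (hb : b ∈ Bs S r p) :
    ((Fs S r p).filter (fun f => univ.image f = b)).card = AA S r := by
  unfold Bs at hb
  obtain ⟨g, hg, rfl⟩ := mem_image.1 hb
  rw [mem_Fs] at hg
  have : Fintype {α : S ≃g S // α r = r} := Fintype.ofFinite _
  unfold AA
  rw [Nat.card_eq_fintype_card, ← Finset.card_univ]
  symm
  apply Finset.card_bij (fun (α : {α : S ≃g S // α r = r}) _ => fun a => g (α.1 a))
  · intro α _
    rw [mem_filter, mem_Fs]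
    exact ⟨hg.comp α.1 α.2, comp_image g α.1⟩
  · intro α _ β _ h
    apply Subtype.ext
    ext a
    exact congrArg Fin.val (hg.inj (congrFun h a))
  · intro f hf
    rw [mem_filter, mem_Fs] at hf
    obtain ⟨α, h1, h2⟩ := exists_aut hf.1 hg hf.2
    exact ⟨⟨α, h1⟩, mem_univ _, funext h2⟩

lemma Tup_card (hp : p ∈ PP V) (k : ℕ) :
    (Tup S r k p).card = (Bs S r p).card.descFactorial k * AA S r ^ k := by
  classical
  have h := card_tuples (Fs S r p) (fun f => univ.image f) (AA S r)
    (fun b hb => fiber_card b hb) k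
  have h2 : Bs S r p = (Fs S r p).image (fun f => univ.image f) := rfl
  rw [h2]
  convert h using 2
  ext φ
  unfold Tup
  simp only [mem_filter, mem_univ, true_and, mem_Fs]
  apply and_congr_right
  intro hφ
  constructor
  · intro hD i j hij
    simp only at hij
    by_contra hne
    have := im_self (φ i) r
    rw [hij] at this
    obtain ⟨b, hb⟩ := mem_im.1 this
    exact hne (hD j b i r hb).1.symm
  · intro hinj i a j b hab
    by_cases hij : i = j
    · subst hij
      exact ⟨rfl, (hφ i).inj hab⟩
    · exfalso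
      have h3 : univ.image (φ j) ≠ univ.image (φ i) := fun h => hij (hinj h.symm)
      exact (hφ i).disj (mem_PP.1 hp).connected (hφ j) h3 a b hab

lemma Gs_card (hp : p ∈ PP V) :
    (Gs S r p).card = if 2 ≤ (Bs S r p).card then AA S r * (Bs S r p).card else 0 := by
  classical
  have h1 : (Fs S r p).card = AA S r * (Bs S r p).card := by
    have h := Tup_card (S := S) (r := r) hp 1
    simp only [Nat.descFactorial_one, pow_one] at h
    rw [mul_comm, ← h]
    symm
    apply Finset.card_bij (fun (φ : Fin 1 → Fin m → V) _ => φ 0)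
    · intro φ hφ
      unfold Tup at hφ
      simp only [mem_filter, mem_univ, true_and] at hφ
      rw [mem_Fs]
      exact hφ.1 0
    · intro φ _ ψ _ h
      funext i
      rw [Fin.fin_one_eq_zero i]
      exact h
    · intro f hf
      rw [mem_Fs] at hf
      refine ⟨fun _ => f, ?_, rfl⟩
      unfold Tup
      simp only [mem_filter, mem_univ, true_and]
      refine ⟨fun _ => hf, ?_⟩
      intro i a j b hab
      exact ⟨Subsingleton.elim _ _, hf.inj hab⟩
  split_ifs with h2
  · rw [← h1]
    congr 1
    ext f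
    rw [mem_Fs]
    unfold Gs
    simp only [mem_filter, mem_univ, true_and]
    constructor
    · exact fun h => h.1
    · intro hf
      refine ⟨hf, ?_⟩
      have hmem : univ.image f ∈ Bs S r p := mem_image.2 ⟨f, mem_Fs.2 hf, rfl⟩
      obtain ⟨b, hb, hne⟩ := Finset.exists_mem_ne (by omega : 1 < (Bs S r p).card) (univ.image f)
      obtain ⟨g, hg, rfl⟩ := mem_image.1 hb
      exact ⟨g, mem_Fs.1 hg, hne⟩
  · rw [Finset.card_eq_zero]
    unfold Gs
    rw [Finset.filter_eq_empty_iff]
    rintro f _ ⟨hf, g, hg, hne⟩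
    apply h2
    have h3 : univ.image f ∈ Bs S r p := mem_image.2 ⟨f, mem_Fs.2 hf, rfl⟩
    have h4 : univ.image g ∈ Bs S r p := mem_image.2 ⟨g, mem_Fs.2 hg, rfl⟩
    have := Finset.one_lt_card.2 ⟨_, h4, _, h3, hne⟩
    omega

open Classical in
lemma card_Dj (k : ℕ) : (univ.filter (fun φ : Fin k → Fin m → V => Dj φ)).card =
    (Fintype.card V).descFactorial (k * m) := by
  have h1 : Fintype.card (Fin k × Fin m ↪ V) = (Fintype.card V).descFactorial (k * m) := by
    rw [Fintype.card_embedding_eq]
    simp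
  rw [← h1, ← Finset.card_univ]
  symm
  apply Finset.card_bij (fun (e : Fin k × Fin m ↪ V) _ => fun i a => e (i, a))
  · intro e _
    simp only [mem_filter, mem_univ, true_and]
    intro i a j b h
    have := e.injective h
    simpa using this
  · intro e _ e' _ h
    ext ⟨i, a⟩
    exact congrFun (congrFun h i) a
  · intro φ hφ
    simp only [mem_filter, mem_univ, true_and] at hφ
    refine ⟨⟨fun q => φ q.1 q.2, ?_⟩, mem_univ _, rfl⟩
    rintro ⟨i, a⟩ ⟨j, b⟩ h
    obtain ⟨h1, h2⟩ := hφ i a j b h
    rw [h1, h2]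

open Classical in
/-- the number of pairs (tree, vertex) with given labelled branches -/
lemma card_given (hS : S.IsTree) {k : ℕ} {φ : Fin k → Fin m → V} (hφ : Dj φ) :
    ((PP V).filter (fun p => ∀ i, IsBr p.1 p.2 S r (φ i))).card =
        nn (Fintype.card V - k * m) := by
  have h2 := card_glue (r := r) hS hφ
  rw [tv_eq] at h2
  have h3 := card_split hφ
  rw [Nat.card_eq_fintype_card, Nat.card_eq_fintype_card] at h3
  have h4 : Fintype.card V - k * m = Fintype.card (Out φ) := by omega
  rw [h4, ← h2, Nat.card_eq_fintype_card, Fintype.card_subtype]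
  congr 1
  ext p
  simp only [mem_filter, mem_univ, true_and, mem_PP]
  constructor
  · rintro ⟨h5, h6⟩
    exact ⟨h5, fun i a => (h6 i).avoid a, h6⟩
  · rintro ⟨h5, -, h6⟩
    exact ⟨h5, h6⟩

/-- the number of tuples of labelled disjoint branches -/
lemma sum_Tup (hS : S.IsTree) (k : ℕ) :
    ∑ p ∈ PP V, (Tup S r k p).card =
      (Fintype.card V).descFactorial (k * m) * nn (Fintype.card V - k * m) := by
  classical
  have h1 : ∀ φ ∈ (univ.filter (fun φ : Fin k → Fin m → V => Dj φ)),
      ((PP V).filter (fun p => ∀ i, IsBr p.1 p.2 S r (φ i))).card =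
        nn (Fintype.card V - k * m) := by
    intro φ hφ
    simp only [mem_filter, mem_univ, true_and] at hφ
    exact card_given hS hφ
  have h2 : ∑ p ∈ PP V, (Tup S r k p).card =
      ∑ φ ∈ (univ.filter (fun φ : Fin k → Fin m → V => Dj φ)),
        ((PP V).filter (fun p => ∀ i, IsBr p.1 p.2 S r (φ i))).card := by
    have h3 : ∀ p ∈ PP V, (Tup S r k p).card =
        ((univ.filter (fun φ : Fin k → Fin m → V => Dj φ)).filter
          (fun φ => ∀ i, IsBr p.1 p.2 S r (φ i))).card := by
      intro p _
      congr 1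
      ext φ
      unfold Tup
      simp only [mem_filter, mem_univ, true_and]
      exact and_comm
    rw [Finset.sum_congr rfl h3]
    exact Finset.sum_card_bipartiteAbove_eq_sum_card_bipartiteBelow _
  rw [h2, Finset.sum_congr rfl h1, Finset.sum_const, card_Dj, smul_eq_mul]

/-- the number of labelled branches isomorphic to `(S, r)` with a twin -/
lemma sum_Gs (hS : S.IsTree) {K : ℕ} (hK : 2 ^ Fintype.card V ≤ K) :
    ((∑ p ∈ PP V, (Gs S r p).card : ℕ) : ℝ) = ∑ j ∈ range K, (-1 : ℝ) ^ j /
      ((j + 1).factorial * (AA S r : ℝ) ^ (j + 1)) *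
        (((Fintype.card V).descFactorial ((j + 2) * m) *
          nn (Fintype.card V - (j + 2) * m) : ℕ) : ℝ) := by
  classical
  have h1 : ∀ p ∈ PP V, ((Gs S r p).card : ℝ) = ∑ j ∈ range K, (-1 : ℝ) ^ j /
      ((j + 1).factorial * (AA S r : ℝ) ^ (j + 1)) * ((Tup S r (j + 2) p).card : ℝ) := by
    intro p hp
    have hN : (Bs S r p).card ≤ K := by
      calc (Bs S r p).card ≤ Fintype.card (Finset V) := card_le_univ _
        _ = 2 ^ Fintype.card V := Fintype.card_finset
        _ ≤ K := hK
    rw [Gs_card hp, alt_sum _ _ K (AA_pos S r) hN]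
    apply Finset.sum_congr rfl
    intro j _
    rw [Tup_card hp]
  rw [Nat.cast_sum, Finset.sum_congr rfl h1, Finset.sum_comm]
  apply Finset.sum_congr rfl
  intro j _
  rw [← Finset.mul_sum, ← Nat.cast_sum, sum_Tup hS]

/-- an upper bound -/
lemma sum_Gs_le (hS : S.IsTree) :
    ∑ p ∈ PP V, (Gs S r p).card ≤
      (Fintype.card V).descFactorial (2 * m) * nn (Fintype.card V - 2 * m) := by
  rw [← sum_Tup (r := r) hS 2]
  apply Finset.sum_le_sum
  intro p hp
  rw [Gs_card hp, Tup_card hp]
  have hA := AA_pos S r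
  split_ifs with h
  · obtain ⟨N, hN⟩ : ∃ N, (Bs S r p).card = N + 2 := ⟨(Bs S r p).card - 2, by omega⟩
    rw [hN]
    have e1 : (N + 2).descFactorial 2 = (N + 2) * (N + 1) := by
      rw [Nat.succ_descFactorial_succ, Nat.descFactorial_one]
    rw [e1]
    obtain ⟨A, hA'⟩ : ∃ A, AA S r = A + 1 := ⟨AA S r - 1, by omega⟩
    rw [hA']
    nlinarith [Nat.zero_le (A * N), Nat.zero_le N, Nat.zero_le A, Nat.zero_le (A * A * N),
      Nat.zero_le (A * N * N), Nat.zero_le (N * N), Nat.zero_le (A * A * N * N),
      Nat.zero_le (A * A)]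
  · exact Nat.zero_le _

end main

end Pool.Agent.R391.FV
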