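import Pool.Agent.R391.FV.Branch

set_option autoImplicit false
set_option linter.unusedSectionVars false

/-! # Labelled branches -/

namespace Pool.Agent.R391.FV

open Finset

variable {V : Type} [Fintype V] [DecidableEq V] {m : ℕ}

/-- `f` embeds the rooted graph `(S, r)` as a branch of `T` at `s`. -/
structure IsBr (T : SimpleGraph V) (s : V) (S : SimpleGraph (Fin m)) (r : Fin m)
    (f : Fin m → V) : Prop where
  inj : Function.Injective f
  avoid : ∀ a, f a ≠ s
  adj : ∀ a b, T.Adj (f a) (f b) ↔ S.Adj a b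
  out : ∀ a x, (∀ b, f b ≠ x) → (T.Adj (f a) x ↔ a = r ∧ x = s)

/-- there is another branch at `s` isomorphic to the branch `f`. -/
def Tw (T : SimpleGraph V) (s : V) (S : SimpleGraph (Fin m)) (r : Fin m)
    (f : Fin m → V) : Prop :=
  ∃ g : Fin m → V, IsBr T s S r g ∧ univ.image g ≠ univ.image f

/-- `w` is fixed by all automorphisms of the rooted graph `(S, r)`. -/
def Rig (S : SimpleGraph (Fin m)) (r w : Fin m) : Prop := ∀ α : S ≃g S, α r = r → α w = w

variable {T : SimpleGraph V} {s : V} {S : SimpleGraph (Fin m)} {r : Fin m} {f g : Fin m → V}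

lemma mem_im {f : Fin m → V} {x : V} : x ∈ univ.image f ↔ ∃ a, f a = x := by simp

lemma not_mem_im {f : Fin m → V} {x : V} : x ∉ univ.image f ↔ ∀ a, f a ≠ x := by simp

lemma im_self (f : Fin m → V) (a : Fin m) : f a ∈ univ.image f := mem_im.2 ⟨a, rfl⟩

lemma IsBr.branch (hf : IsBr T s S r f) : Branch T s (f r) (univ.image f) := by
  refine ⟨im_self f r, not_mem_im.2 hf.avoid, ?_, ?_⟩
  · exact (hf.out r s hf.avoid).2 ⟨rfl, rfl⟩
  · intro x hx y hy hxy
    obtain ⟨a, rfl⟩ := mem_im.1 hx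
    obtain ⟨h1, h2⟩ := (hf.out a y (not_mem_im.1 hy)).1 hxy
    exact ⟨by rw [h1], h2⟩

lemma IsBr.card (hf : IsBr T s S r f) : (univ.image f).card = m := by
  rw [card_image_of_injective _ hf.inj, card_univ, Fintype.card_fin]

/-- labelling a branch -/
lemma Branch.exists_isBr {u : V} {B : Finset V} (hB : Branch T s u B) (h : B.card = m) :
    ∃ (S : SimpleGraph (Fin m)) (r : Fin m) (f : Fin m → V), IsBr T s S r f ∧
      univ.image f = B ∧ f r = u := by
  let e : Fin m ≃ B := (B.equivFinOfCardEq h).symm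
  have him : univ.image (fun a => (e a : V)) = B := by
    ext x
    rw [mem_im]
    constructor
    · rintro ⟨a, rfl⟩
      exact (e a).2
    · intro hx
      exact ⟨e.symm ⟨x, hx⟩, by simp⟩
  have hinj : Function.Injective (fun a => (e a : V)) := fun a b hab => e.injective (Subtype.ext hab)
  have hr : ((e (e.symm ⟨u, hB.mem⟩) : B) : V) = u := by simp
  refine ⟨T.comap (fun a => (e a : V)), e.symm ⟨u, hB.mem⟩, fun a => (e a : V),
    ⟨hinj, ?_, fun a b => Iff.rfl, ?_⟩, him, hr⟩
  · intro a ha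
    exact hB.not_mem (ha ▸ (e a).2)
  · intro a x hx
    rw [← not_mem_im (f := fun a => (e a : V)), him] at hx
    constructor
    · intro h
      obtain ⟨h1, h2⟩ := hB.cross _ (e a).2 x hx h
      refine ⟨?_, h2⟩
      apply e.injective
      apply Subtype.ext
      rw [hr, h1]
    · rintro ⟨rfl, rfl⟩
      show T.Adj ((e (e.symm ⟨u, hB.mem⟩) : B) : V) x
      rw [hr]
      exact hB.adj

lemma IsBr.map (hf : IsBr T s S r f) (σ : T ≃g T) : IsBr T (σ s) S r (fun a => σ (f a)) := by
  refine ⟨fun a b h => hf.inj (σ.injective h), fun a h => hf.avoid a (σ.injective h), ?_, ?_⟩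
  · intro a b
    rw [σ.map_adj_iff]
    exact hf.adj a b
  · intro a x hx
    have h1 : ∀ b, f b ≠ σ.symm x := by
      intro b hb
      apply hx b
      rw [hb]
      exact σ.apply_symm_apply x
    have h2 := hf.out a (σ.symm x) h1
    rw [← σ.map_adj_iff, σ.apply_symm_apply] at h2
    rw [h2]
    constructor
    · rintro ⟨h3, h4⟩
      exact ⟨h3, by rw [← h4, σ.apply_symm_apply]⟩
    · rintro ⟨h3, h4⟩
      exact ⟨h3, by rw [h4, σ.symm_apply_apply]⟩

lemma IsBr.disj (hT : T.Connected) (hf : IsBr T s S r f) (hg : IsBr T s S r g)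
    (h : univ.image g ≠ univ.image f) : ∀ a b, f a ≠ g b := by
  intro a b hab
  apply h
  exact hg.branch.eq_of_same hT hf.branch (im_self g b) (hab ▸ im_self f a)

lemma IsBr.size (hT : T.Connected) (hf : IsBr T s S r f) (hg : IsBr T s S r g)
    (h : univ.image g ≠ univ.image f) : 2 * m + 1 ≤ Fintype.card V := by
  have hd : Disjoint (univ.image f) (univ.image g) := by
    rw [Finset.disjoint_left]
    intro x hx hx'
    obtain ⟨a, rfl⟩ := mem_im.1 hx
    obtain ⟨b, hb⟩ := mem_im.1 hx'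
    exact hf.disj hT hg h a b hb.symm
  have hs : s ∉ univ.image f ∪ univ.image g := by
    rw [mem_union, not_or]
    exact ⟨not_mem_im.2 hf.avoid, not_mem_im.2 hg.avoid⟩
  have h1 : (insert s (univ.image f ∪ univ.image g)).card = 2 * m + 1 := by
    rw [card_insert_of_notMem hs, card_union_of_disjoint hd, hf.card, hg.card]
    ring
  rw [← h1]
  exact card_le_univ _

lemma IsBr.isTree (hT : T.IsTree) (hf : IsBr T s S r f) : S.IsTree := by
  refine ⟨?_, ?_⟩
  · rw [SimpleGraph.connected_iff_exists_forall_reachable]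
    refine ⟨r, fun a => ?_⟩
    have h := hf.branch.conn hT.connected (fun y => ∀ a, f a = y → S.Reachable r a)
      (im_self f r) (fun a ha => by rw [hf.inj ha]) ?_ (f a) (im_self f a) a rfl
    · exact h
    · intro x y hx hy hPx hxy b hb
      obtain ⟨a, rfl⟩ := mem_im.1 hx
      subst hb
      exact (hPx a rfl).trans ((hf.adj a b).1 hxy).reachable
  · exact hT.isAcyclic.comap ⟨f, fun {a b} h => (hf.adj a b).2 h⟩ hf.inj

open Classical in
/-- the automorphism swapping two isomorphic branches -/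
lemma exists_swap (hT : T.Connected) (hf : IsBr T s S r f) (hg : IsBr T s S r g)
    (h : univ.image g ≠ univ.image f) :
    ∃ σ : T ≃g T, (∀ a, σ (f a) = g a) ∧ (∀ a, σ (g a) = f a) ∧
      ∀ x, (∀ a, f a ≠ x) → (∀ a, g a ≠ x) → σ x = x := by
  have hd := hf.disj hT hg h
  let σ : V → V := fun x => if h : ∃ a, f a = x then g h.choose else
    if h : ∃ a, g a = x then f h.choose else x
  have h1 : ∀ a, σ (f a) = g a := by
    intro a
    have hex : ∃ b, f b = f a := ⟨a, rfl⟩
    simp only [σ, dif_pos hex]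
    rw [hf.inj hex.choose_spec]
  have h2 : ∀ a, σ (g a) = f a := by
    intro a
    have hex : ∃ b, g b = g a := ⟨a, rfl⟩
    have hnex : ¬ ∃ b, f b = g a := fun ⟨b, hb⟩ => hd b a hb
    simp only [σ, dif_neg hnex, dif_pos hex]
    rw [hg.inj hex.choose_spec]
  have h3 : ∀ x, (∀ a, f a ≠ x) → (∀ a, g a ≠ x) → σ x = x := by
    intro x hx hx'
    have hn1 : ¬ ∃ b, f b = x := fun ⟨b, hb⟩ => hx b hb
    have hn2 : ¬ ∃ b, g b = x := fun ⟨b, hb⟩ => hx' b hb
    simp only [σ, dif_neg hn1, dif_neg hn2]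
  have hcases : ∀ x, (∃ a, f a = x) ∨ (∃ a, g a = x) ∨ ((∀ a, f a ≠ x) ∧ ∀ a, g a ≠ x) := by
    intro x
    by_cases hx : ∃ a, f a = x
    · exact Or.inl hx
    · by_cases hx' : ∃ a, g a = x
      · exact Or.inr (Or.inl hx')
      · push Not at hx hx'
        exact Or.inr (Or.inr ⟨hx, hx'⟩)
  have hinv : Function.Involutive σ := by
    intro x
    rcases hcases x with ⟨a, rfl⟩ | ⟨a, rfl⟩ | ⟨hx, hx'⟩
    · rw [h1, h2]
    · rw [h2, h1]
    · rw [h3 x hx hx', h3 x hx hx']
  have hσs : σ s = s := h3 s hf.avoid hg.avoid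
  have key : ∀ (f g : Fin m → V), IsBr T s S r f → IsBr T s S r g → (∀ a b, f a ≠ g b) →
      (∀ a, σ (f a) = g a) → (∀ a, σ (g a) = f a) → ∀ a y, T.Adj (f a) y →
      T.Adj (g a) (σ y) := by
    intro f g hf hg hd h1 h2 a y hy
    by_cases hyf : ∃ b, f b = y
    · obtain ⟨b, rfl⟩ := hyf
      rw [h1]
      exact (hg.adj a b).2 ((hf.adj a b).1 hy)
    · push Not at hyf
      obtain ⟨rfl, rfl⟩ := (hf.out a y hyf).1 hy
      rw [hσs]
      exact (hg.out a y hg.avoid).2 ⟨rfl, rfl⟩
  have hadj : ∀ x y, T.Adj x y → T.Adj (σ x) (σ y) := by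
    intro x y hxy
    rcases hcases x with ⟨a, rfl⟩ | ⟨a, rfl⟩ | ⟨hx, hx'⟩
    · rw [h1]
      exact key f g hf hg hd h1 h2 a y hxy
    · rw [h2]
      exact key g f hg hf (fun a b h => hd b a h.symm) h2 h1 a y hxy
    · rw [h3 x hx hx']
      rcases hcases y with ⟨a, rfl⟩ | ⟨a, rfl⟩ | ⟨hy, hy'⟩
      · rw [h1]
        have := key f g hf hg hd h1 h2 a x hxy.symm
        rw [h3 x hx hx'] at this
        exact this.symm
      · rw [h2]
        have := key g f hg hf (fun a b h => hd b a h.symm) h2 h1 a x hxy.symm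
        rw [h3 x hx hx'] at this
        exact this.symm
      · rw [h3 y hy hy']
        exact hxy
  refine ⟨⟨hinv.toPerm σ, ?_⟩, h1, h2, h3⟩
  intro x y
  constructor
  · intro h
    have := hadj _ _ h
    simp only [Function.Involutive.coe_toPerm] at this
    rwa [hinv x, hinv y] at this
  · intro h
    exact hadj x y h

open Classical in
/-- extending an automorphism of a branch to the tree -/
lemma exists_extend (hf : IsBr T s S r f) (α : S ≃g S) (hα : α r = r) :
    ∃ σ : T ≃g T, (∀ a, σ (f a) = f (α a)) ∧ ∀ x, (∀ a, f a ≠ x) → σ x = x := by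
  let F : (S ≃g S) → V → V := fun β x => if h : ∃ a, f a = x then f (β h.choose) else x
  have h1 : ∀ (β : S ≃g S) a, F β (f a) = f (β a) := by
    intro β a
    have hex : ∃ b, f b = f a := ⟨a, rfl⟩
    simp only [F, dif_pos hex]
    rw [hf.inj hex.choose_spec]
  have h3 : ∀ (β : S ≃g S) x, (∀ a, f a ≠ x) → F β x = x := by
    intro β x hx
    have hn1 : ¬ ∃ b, f b = x := fun ⟨b, hb⟩ => hx b hb
    simp only [F, dif_neg hn1]
  have hcases : ∀ x, (∃ a, f a = x) ∨ (∀ a, f a ≠ x) := by
    intro x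
    by_cases hx : ∃ a, f a = x
    · exact Or.inl hx
    · push Not at hx
      exact Or.inr hx
  have hinv : ∀ (β γ : S ≃g S), (∀ a, γ (β a) = a) → ∀ x, F γ (F β x) = x := by
    intro β γ hβγ x
    rcases hcases x with ⟨a, rfl⟩ | hx
    · rw [h1, h1, hβγ]
    · rw [h3 β x hx, h3 γ x hx]
  have hadj : ∀ (β : S ≃g S), β r = r → ∀ x y, T.Adj x y → T.Adj (F β x) (F β y) := by
    intro β hβ x y hxy
    rcases hcases x with ⟨a, rfl⟩ | hx
    · rcases hcases y with ⟨b, rfl⟩ | hy
      · rw [h1, h1]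
        exact (hf.adj _ _).2 (β.map_adj_iff.2 ((hf.adj _ _).1 hxy))
      · rw [h1, h3 β y hy]
        obtain ⟨rfl, rfl⟩ := (hf.out a y hy).1 hxy
        rw [hβ]
        exact hxy
    · rcases hcases y with ⟨b, rfl⟩ | hy
      · rw [h1, h3 β x hx]
        obtain ⟨rfl, rfl⟩ := (hf.out b x hx).1 hxy.symm
        rw [hβ]
        exact hxy
      · rw [h3 β x hx, h3 β y hy]
        exact hxy
  have hαs : α.symm r = r := by
    conv_lhs => rw [← hα]
    exact α.symm_apply_apply r
  have hi1 := hinv α α.symm (fun a => α.symm_apply_apply a)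
  have hi2 := hinv α.symm α (fun a => α.apply_symm_apply a)
  refine ⟨⟨⟨F α, F α.symm, hi1, hi2⟩, ?_⟩, h1 α, h3 α⟩
  intro x y
  constructor
  · intro h
    have := hadj α.symm hαs _ _ h
    simp only [Equiv.coe_fn_mk] at this
    rwa [hi1, hi1] at this
  · intro h
    exact hadj α hα x y h

/-- restricting an automorphism of the tree to a branch -/
lemma exists_restrict (hf : IsBr T s S r f) (σ : T ≃g T) (h : ∀ a, ∃ b, f b = σ (f a)) :
    ∃ α : S ≃g S, ∀ a, f (α a) = σ (f a) := by
  choose β hβ using h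
  have hinj : Function.Injective β := by
    intro a b hab
    apply hf.inj
    apply σ.injective
    rw [← hβ a, ← hβ b, hab]
  have hbij : Function.Bijective β := Finite.injective_iff_bijective.1 hinj
  refine ⟨⟨Equiv.ofBijective β hbij, ?_⟩, hβ⟩
  intro a b
  simp only [Equiv.ofBijective_apply]
  rw [← hf.adj, hβ, hβ, σ.map_adj_iff, hf.adj]

end Pool.Agent.R391.FV
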