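import Pool.Agent.R391.FV.Struct

set_option autoImplicit false
set_option linter.unusedSectionVars false

/-! # Trees with given branches -/

namespace Pool.Agent.R391.FV

open Finset

section dd

variable {V : Type} [Fintype V]

open Classical in
/-- the number of ordered pairs of adjacent vertices -/
noncomputable def dd (G : SimpleGraph V) : ℕ := ∑ x : V, ∑ y : V, if G.Adj x y then 1 else 0

lemma dd_eq (G : SimpleGraph V) : dd G = 2 * Nat.card G.edgeSet := by
  classical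
  unfold dd
  rw [← Finset.sum_product', Finset.univ_product_univ]
  rw [Finset.sum_boole]
  have h := SimpleGraph.two_mul_card_edgeFinset (G := G)
  rw [Nat.card_eq_fintype_card, ← SimpleGraph.edgeFinset_card, h]
  simp

end dd

section glue

variable {V : Type} [Fintype V] [DecidableEq V] {k m : ℕ}

/-- disjoint labelled sets -/
def Dj (φ : Fin k → Fin m → V) : Prop := ∀ i a j b, φ i a = φ j b → i = j ∧ a = b

/-- the vertices outside of the labelled sets -/
abbrev Out (φ : Fin k → Fin m → V) : Type := {x : V // ∀ i a, φ i a ≠ x}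

open Classical in
lemma sum_split {φ : Fin k → Fin m → V} (hφ : Dj φ) (F : V → ℕ) :
    ∑ x : V, F x = ∑ w : Out φ, F w + ∑ i, ∑ a, F (φ i a) := by
  rw [← Finset.sum_filter_add_sum_filter_not univ (fun x => ∀ i a, φ i a ≠ x)]
  congr 1
  · exact Finset.sum_subtype _ (by simp) F
  · have h1 : univ.filter (fun x => ¬ ∀ i a, φ i a ≠ x) =
        (univ : Finset (Fin k × Fin m)).image (fun p => φ p.1 p.2) := by
      ext x
      simp only [mem_filter, mem_univ, true_and, mem_image, Prod.exists]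
      push Not
      rfl
    rw [h1, Finset.sum_image, ← Finset.univ_product_univ, Finset.sum_product]
    rintro ⟨i, a⟩ _ ⟨j, b⟩ _ h
    obtain ⟨h2, h3⟩ := hφ i a j b h
    rw [h2, h3]

lemma card_split {φ : Fin k → Fin m → V} (hφ : Dj φ) :
    Nat.card V = Nat.card (Out φ) + k * m := by
  classical
  have h := sum_split hφ (fun _ => 1)
  rw [Nat.card_eq_fintype_card, Nat.card_eq_fintype_card]
  simpa using h

variable {S : SimpleGraph (Fin m)} {r : Fin m} {φ : Fin k → Fin m → V}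

open Classical in
lemma dd_split (hφ : Dj φ) {T : SimpleGraph V} {s : V} (hs : ∀ i a, φ i a ≠ s)
    (hT : ∀ i, IsBr T s S r (φ i)) :
    dd T = dd (T.comap (Subtype.val : Out φ → V)) + 2 * k + k * dd S := by
  have h1 : ∀ i a (w : Out φ), T.Adj (φ i a) w ↔ a = r ∧ (w : V) = s := by
    intro i a w
    exact (hT i).out a w (fun b => w.2 i b)
  have h2 : ∀ i a j b, T.Adj (φ i a) (φ j b) ↔ i = j ∧ S.Adj a b := by
    intro i a j b
    by_cases hij : i = j
    · subst hij
      rw [(hT i).adj]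
      simp
    · rw [(hT i).out a (φ j b) (fun c hc => hij (hφ i c j b hc).1)]
      constructor
      · rintro ⟨-, h⟩
        exact absurd h (hs j b)
      · rintro ⟨h, -⟩
        exact absurd h hij
  unfold dd
  rw [sum_split hφ]
  simp_rw [sum_split hφ (fun y => if T.Adj _ y then 1 else 0)]
  rw [Finset.sum_add_distrib]
  simp_rw [Finset.sum_add_distrib]
  have e1 : ∀ w : Out φ, ∑ i, ∑ a, (if T.Adj (w : V) (φ i a) then 1 else 0) =
      if w = (⟨s, hs⟩ : Out φ) then k else 0 := by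
    intro w
    have : ∀ i a, (if T.Adj (w : V) (φ i a) then 1 else 0) =
        if a = r then (if w = (⟨s, hs⟩ : Out φ) then 1 else 0) else 0 := by
      intro i a
      rw [T.adj_comm, h1]
      by_cases ha : a = r <;> by_cases hw : (w : V) = s <;> simp [ha, hw, Subtype.ext_iff]
    simp_rw [this]
    simp
  have e2 : ∀ i a, ∑ w : Out φ, (if T.Adj (φ i a) (w : V) then 1 else 0) =
      if a = r then 1 else 0 := by
    intro i a
    have : ∀ w : Out φ, (if T.Adj (φ i a) (w : V) then 1 else 0) =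
        if w = (⟨s, hs⟩ : Out φ) then (if a = r then 1 else 0) else 0 := by
      intro w
      rw [h1]
      by_cases ha : a = r <;> by_cases hw : (w : V) = s <;> simp [ha, hw, Subtype.ext_iff]
    simp_rw [this]
    simp
  have e3 : ∀ i a, ∑ j, ∑ b, (if T.Adj (φ i a) (φ j b) then 1 else 0) =
      ∑ b, if S.Adj a b then 1 else 0 := by
    intro i a
    rw [Finset.sum_eq_single i]
    · apply Finset.sum_congr rfl
      intro b _
      simp [h2]
    · intro j _ hj
      apply Finset.sum_eq_zero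
      intro b _
      rw [if_neg]
      rw [h2]
      exact fun h => hj h.1.symm
    · simp
  simp_rw [e1, e2, e3]
  simp only [Finset.sum_ite_eq', Finset.mem_univ, if_true, Finset.sum_const, Finset.card_univ,
    Fintype.card_fin, smul_eq_mul, mul_one, SimpleGraph.comap_adj]
  ring

lemma edges_split (hφ : Dj φ) {T : SimpleGraph V} {s : V} (hs : ∀ i a, φ i a ≠ s)
    (hT : ∀ i, IsBr T s S r (φ i)) :
    2 * Nat.card T.edgeSet = 2 * Nat.card (T.comap (Subtype.val : Out φ → V)).edgeSet + 2 * k +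
      k * (2 * Nat.card S.edgeSet) := by
  have h := dd_split hφ hs hT
  rw [dd_eq, dd_eq, dd_eq] at h
  exact h

/-- the rest of the tree is a tree -/
lemma isTree_iff_out (hS : S.IsTree) (hφ : Dj φ) {T : SimpleGraph V} {s : V}
    (hs : ∀ i a, φ i a ≠ s) (hT : ∀ i, IsBr T s S r (φ i)) :
    T.IsTree ↔ (T.comap (Subtype.val : Out φ → V)).IsTree := by
  rw [SimpleGraph.isTree_iff_connected_and_card, SimpleGraph.isTree_iff_connected_and_card,
    card_split hφ]
  have he := edges_split hφ hs hT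
  have h0 := (SimpleGraph.isTree_iff_connected_and_card.1 hS).2
  rw [Nat.card_eq_fintype_card (α := Fin m), Fintype.card_fin] at h0
  have hk : k * (2 * Nat.card S.edgeSet) + 2 * k = 2 * (k * m) := by
    have : k * (Nat.card S.edgeSet + 1) = k * m := by rw [h0]
    nlinarith
  have hconn : T.Connected ↔ (T.comap (Subtype.val : Out φ → V)).Connected := by
    constructor
    · intro hc
      rw [SimpleGraph.connected_iff_exists_forall_reachable]
      refine ⟨⟨s, hs⟩, ?_⟩
      by_contra hcon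
      push Not at hcon
      obtain ⟨w, hw⟩ := hcon
      obtain ⟨x, y, hx, hy, hxy⟩ := cross_edge hc
        (fun x => ∀ hx : ∀ i a, φ i a ≠ x, (T.comap (Subtype.val : Out φ → V)).Reachable
          ⟨s, hs⟩ ⟨x, hx⟩) (a := s) (b := (w : V)) (fun _ => SimpleGraph.Reachable.refl _)
        (fun h => hw (h w.2))
      push Not at hy
      obtain ⟨hy, hny⟩ := hy
      apply hny
      by_cases hx' : ∀ i a, φ i a ≠ x
      · have h1 := hx hx'
        refine h1.trans (SimpleGraph.Adj.reachable ?_)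
        exact hxy
      · push Not at hx'
        obtain ⟨i, a, rfl⟩ := hx'
        have h1 := (((hT i).out a y (fun b => hy i b)).1 hxy).2
        subst h1
        exact SimpleGraph.Reachable.refl _
    · intro hc
      rw [SimpleGraph.connected_iff_exists_forall_reachable]
      refine ⟨s, fun x => ?_⟩
      by_cases hx : ∀ i a, φ i a ≠ x
      · have h1 := hc.preconnected ⟨s, hs⟩ ⟨x, hx⟩
        exact h1.map (⟨Subtype.val, fun {a b} h => h⟩ :
          (T.comap (Subtype.val : Out φ → V)) →g T)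
      · push Not at hx
        obtain ⟨i, a, rfl⟩ := hx
        have h1 := hS.connected.preconnected r a
        have h2 := h1.map (⟨φ i, fun {a b} h => ((hT i).adj a b).2 h⟩ : S →g T)
        refine SimpleGraph.Reachable.trans (SimpleGraph.Adj.reachable ?_) h2
        exact (hT i).branch.adj.symm
  rw [hconn]
  have hO : Nat.card {x : V // ∀ (i : Fin k) (a : Fin m), φ i a ≠ x} = Nat.card (Out φ) := rfl
  constructor
  · rintro ⟨h1, h2⟩
    exact ⟨h1, by omega⟩
  · rintro ⟨h1, h2⟩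
    exact ⟨h1, by omega⟩

/-- the glued graph -/
def glue (S : SimpleGraph (Fin m)) (r : Fin m) (φ : Fin k → Fin m → V)
    (T₀ : SimpleGraph (Out φ)) (s : Out φ) (hφ : Dj φ) : SimpleGraph V where
  Adj x y := (∃ (hx : ∀ i a, φ i a ≠ x) (hy : ∀ i a, φ i a ≠ y), T₀.Adj ⟨x, hx⟩ ⟨y, hy⟩) ∨
    (∃ i a b, φ i a = x ∧ φ i b = y ∧ S.Adj a b) ∨ (∃ i, φ i r = x ∧ y = s) ∨
    (∃ i, φ i r = y ∧ x = s)
  symm := ⟨by
    rintro x y (⟨hx, hy, h⟩ | ⟨i, a, b, h1, h2, h3⟩ | ⟨i, h1, h2⟩ | ⟨i, h1, h2⟩)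
    · exact Or.inl ⟨hy, hx, h.symm⟩
    · exact Or.inr (Or.inl ⟨i, b, a, h2, h1, h3.symm⟩)
    · exact Or.inr (Or.inr (Or.inr ⟨i, h1, h2⟩))
    · exact Or.inr (Or.inr (Or.inl ⟨i, h1, h2⟩))⟩
  loopless := ⟨by
    rintro x (⟨hx, hy, h⟩ | ⟨i, a, b, h1, h2, h3⟩ | ⟨i, h1, h2⟩ | ⟨i, h1, h2⟩)
    · exact h.ne rfl
    · have h4 := (hφ i a i b (h1.trans h2.symm)).2
      exact h3.ne h4
    · exact s.2 i r (h1.trans h2)
    · exact s.2 i r (h1.trans h2)⟩

lemma glue_isBr (hφ : Dj φ) (T₀ : SimpleGraph (Out φ)) (s : Out φ) (i : Fin k) :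
    IsBr (glue S r φ T₀ s hφ) s S r (φ i) := by
  refine ⟨fun a b h => (hφ i a i b h).2, fun a => s.2 i a, ?_, ?_⟩
  · intro a b
    constructor
    · rintro (⟨hx, hy, h⟩ | ⟨j, c, d, h1, h2, h3⟩ | ⟨j, h1, h2⟩ | ⟨j, h1, h2⟩)
      · exact absurd rfl (hx i a)
      · rw [(hφ _ _ _ _ h1).2, (hφ _ _ _ _ h2).2] at h3
        exact h3
      · exact absurd h2 (s.2 i b)
      · exact absurd h2 (s.2 i a)
    · intro h
      exact Or.inr (Or.inl ⟨i, a, b, rfl, rfl, h⟩)
  · intro a x hx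
    constructor
    · rintro (⟨hx', hy, h⟩ | ⟨j, c, d, h1, h2, h3⟩ | ⟨j, h1, h2⟩ | ⟨j, h1, h2⟩)
      · exact absurd rfl (hx' i a)
      · rw [(hφ _ _ _ _ h1).1] at h2
        exact absurd h2 (hx d)
      · exact ⟨(hφ _ _ _ _ h1).2.symm, h2⟩
      · exact absurd h2 (s.2 i a)
    · rintro ⟨rfl, h⟩
      exact Or.inr (Or.inr (Or.inl ⟨i, rfl, h⟩))

lemma glue_comap (hφ : Dj φ) (T₀ : SimpleGraph (Out φ)) (s : Out φ) :
    (glue S r φ T₀ s hφ).comap (Subtype.val : Out φ → V) = T₀ := by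
  ext x y
  simp only [SimpleGraph.comap_adj]
  constructor
  · rintro (⟨hx', hy, h⟩ | ⟨j, c, d, h1, h2, h3⟩ | ⟨j, h1, h2⟩ | ⟨j, h1, h2⟩)
    · exact h
    · exact absurd h1 (x.2 j c)
    · exact absurd h1 (x.2 j r)
    · exact absurd h1 (y.2 j r)
  · intro h
    exact Or.inl ⟨x.2, y.2, h⟩

lemma glue_of (hφ : Dj φ) {T : SimpleGraph V} {s : V} (hs : ∀ i a, φ i a ≠ s)
    (hT : ∀ i, IsBr T s S r (φ i)) :
    glue S r φ (T.comap (Subtype.val : Out φ → V)) ⟨s, hs⟩ hφ = T := by
  ext x y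
  constructor
  · rintro (⟨hx', hy, h⟩ | ⟨j, c, d, h1, h2, h3⟩ | ⟨j, h1, h2⟩ | ⟨j, h1, h2⟩)
    · exact h
    · rw [← h1, ← h2]
      exact ((hT j).adj c d).2 h3
    · rw [← h1, h2]
      exact (hT j).branch.adj
    · rw [← h1, h2]
      exact (hT j).branch.adj.symm
  · intro h
    by_cases hx : ∀ i a, φ i a ≠ x
    · by_cases hy : ∀ i a, φ i a ≠ y
      · exact Or.inl ⟨hx, hy, h⟩
      · push Not at hy
        obtain ⟨j, b, rfl⟩ := hy
        obtain ⟨rfl, h2⟩ := ((hT j).out b x (fun c => hx j c)).1 h.symm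
        exact Or.inr (Or.inr (Or.inr ⟨j, rfl, h2⟩))
    · push Not at hx
      obtain ⟨i, a, rfl⟩ := hx
      by_cases hy : ∀ b, φ i b ≠ y
      · obtain ⟨rfl, h2⟩ := ((hT i).out a y hy).1 h
        exact Or.inr (Or.inr (Or.inl ⟨i, rfl, h2⟩))
      · push Not at hy
        obtain ⟨b, rfl⟩ := hy
        exact Or.inr (Or.inl ⟨i, a, b, rfl, rfl, ((hT i).adj a b).1 h⟩)

/-- the number of pairs (tree, vertex) -/
noncomputable def tv (V : Type) : ℕ :=
  Nat.card {p : SimpleGraph V × V // p.1.IsTree}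

/-- counting the trees with given branches -/
lemma card_glue (hS : S.IsTree) (hφ : Dj φ) :
    Nat.card {p : SimpleGraph V × V // p.1.IsTree ∧ (∀ i a, φ i a ≠ p.2) ∧
      ∀ i, IsBr p.1 p.2 S r (φ i)} = tv (Out φ) := by
  apply Nat.card_congr
  refine ⟨fun p => ⟨(p.1.1.comap (Subtype.val : Out φ → V), ⟨p.1.2, p.2.2.1⟩),
      (isTree_iff_out hS hφ p.2.2.1 p.2.2.2).1 p.2.1⟩,
    fun q => ⟨(glue S r φ q.1.1 q.1.2 hφ, (q.1.2 : V)), ?_, q.1.2.2,
      glue_isBr hφ q.1.1 q.1.2⟩, ?_, ?_⟩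
  · rw [isTree_iff_out hS hφ q.1.2.2 (glue_isBr hφ q.1.1 q.1.2), glue_comap]
    exact q.2
  · rintro ⟨⟨T, s⟩, h1, h2, h3⟩
    apply Subtype.ext
    simp only [Prod.mk.injEq, and_true]
    exact glue_of hφ h2 h3
  · rintro ⟨⟨T₀, s⟩, h1⟩
    apply Subtype.ext
    simp only [Prod.mk.injEq]
    exact ⟨glue_comap hφ T₀ s, trivial⟩

end glue

end Pool.Agent.R391.FV
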