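import Pool.Agent.R391.FV.Relabel

set_option autoImplicit false
set_option linter.unusedSectionVars false

/-! # Trees with a branch of half of the vertices -/

namespace Pool.Agent.R391.FV

open Finset

variable {V : Type} [Fintype V] [DecidableEq V]

/-- there is a branch with half of the vertices -/
def Half (T : SimpleGraph V) : Prop := ∃ s u B, Branch T s u B ∧ 2 * B.card = Fintype.card V

open Classical in
/-- the trees with a branch of half of the vertices -/
noncomputable def Hf (V : Type) [Fintype V] [DecidableEq V] : Finset (SimpleGraph V) :=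
  univ.filter (fun T => T.IsTree ∧ Half T)

lemma Branch.isBr_of_image {m : ℕ} {T : SimpleGraph V} {s u : V} {B : Finset V}
    (hB : Branch T s u B) {f : Fin m → V} (hf : Function.Injective f) (him : univ.image f = B) :
    ∃ r, IsBr T s (T.comap f) r f := by
  have hu := hB.mem
  rw [← him] at hu
  obtain ⟨r, hr⟩ := mem_im.1 hu
  refine ⟨r, hf, ?_, fun a b => Iff.rfl, ?_⟩
  · intro a ha
    apply hB.not_mem
    rw [← him, ← ha]
    exact im_self f a
  · intro a x hx
    rw [← not_mem_im, him] at hx
    constructor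
    · intro h
      have ha : f a ∈ B := by rw [← him]; exact im_self f a
      obtain ⟨h1, h2⟩ := hB.cross _ ha x hx h
      exact ⟨hf (by rw [h1, hr]), h2⟩
    · rintro ⟨rfl, rfl⟩
      rw [hr]
      exact hB.adj

lemma card_Tr_mul (m : ℕ) : (Tr m).card * m = nn m := by
  have h1 := card_PP (V := Fin m)
  rw [Fintype.card_fin] at h1
  rw [← h1, Finset.card_eq_sum_ones (PP (Fin m)), sum_PP (fun _ _ => 1)]
  simp [Tr]

lemma exists_labels (m : ℕ) : ∃ F : Finset (Fin m → V), F.card ≤ (Fintype.card V).choose m ∧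
    (∀ f ∈ F, Function.Injective f) ∧ ∀ B : Finset V, B.card = m → ∃ f ∈ F, univ.image f = B := by
  classical
  refine ⟨(powersetCard m (univ : Finset V)).attach.image (fun B => fun a =>
    (((B.1.equivFinOfCardEq (mem_powersetCard.1 B.2).2).symm a : B.1) : V)), ?_, ?_, ?_⟩
  · refine card_image_le.trans ?_
    rw [card_attach, card_powersetCard, card_univ]
  · intro f hf
    obtain ⟨B, -, rfl⟩ := mem_image.1 hf
    intro a b hab
    exact (B.1.equivFinOfCardEq _).symm.injective (Subtype.ext hab)
  · intro B hB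
    refine ⟨_, mem_image.2 ⟨⟨B, mem_powersetCard.2 ⟨subset_univ _, hB⟩⟩, mem_attach _ _, rfl⟩, ?_⟩
    ext x
    rw [mem_im]
    constructor
    · rintro ⟨a, rfl⟩
      exact ((B.equivFinOfCardEq _).symm a).2
    · intro hx
      exact ⟨B.equivFinOfCardEq hB ⟨x, hx⟩, by simp⟩

lemma card_Hf_le {m : ℕ} (hm : Fintype.card V = 2 * m) :
    (Hf V).card ≤ (2 * m).choose m * nn m * nn m := by
  classical
  obtain ⟨F, hF1, hF2, hF3⟩ := exists_labels (V := V) m
  have hsub : Hf V ⊆ F.biUnion (fun f => (Tr m).biUnion (fun S => univ.biUnion (fun r : Fin m =>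
      ((PP V).filter (fun p => ∀ i : Fin 1, IsBr p.1 p.2 S r ((fun _ => f) i))).image Prod.fst))) := by
    intro T hT
    unfold Hf at hT
    simp only [mem_filter, mem_univ, true_and] at hT
    obtain ⟨hT, s, u, B, hB, hc⟩ := hT
    obtain ⟨f, hf, him⟩ := hF3 B (by omega)
    obtain ⟨r, hr⟩ := hB.isBr_of_image (hF2 f hf) him
    rw [mem_biUnion]
    refine ⟨f, hf, ?_⟩
    rw [mem_biUnion]
    refine ⟨T.comap f, mem_Tr.2 (hr.isTree hT), ?_⟩
    rw [mem_biUnion]
    refine ⟨r, mem_univ _, ?_⟩
    rw [mem_image]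
    exact ⟨(T, s), mem_filter.2 ⟨mem_PP.2 hT, fun _ => hr⟩, rfl⟩
  have h2 : ∀ f ∈ F, ∀ S ∈ Tr m, ∀ r : Fin m,
      (((PP V).filter (fun p => ∀ i : Fin 1, IsBr p.1 p.2 S r ((fun _ => f) i))).image
        Prod.fst).card ≤ nn m := by
    intro f hf S hS r
    refine card_image_le.trans ?_
    have hD : Dj (fun _ : Fin 1 => f) := by
      intro i a j b hab
      exact ⟨Subsingleton.elim _ _, hF2 f hf hab⟩
    rw [card_given (mem_Tr.1 hS) hD, hm]
    apply le_of_eq
    congr 1
    omega
  calc (Hf V).card ≤ _ := card_le_card hsub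
    _ ≤ ∑ f ∈ F, ((Tr m).biUnion (fun S => univ.biUnion (fun r : Fin m =>
      ((PP V).filter (fun p => ∀ i : Fin 1, IsBr p.1 p.2 S r ((fun _ => f) i))).image
        Prod.fst))).card := card_biUnion_le
    _ ≤ ∑ f ∈ F, ∑ S ∈ Tr m, ∑ r : Fin m, nn m := by
        apply Finset.sum_le_sum
        intro f hf
        refine card_biUnion_le.trans ?_
        apply Finset.sum_le_sum
        intro S hS
        refine card_biUnion_le.trans ?_
        apply Finset.sum_le_sum
        intro r _
        exact h2 f hf S hS r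
    _ = F.card * (nn m * nn m) := by
        simp only [Finset.sum_const, smul_eq_mul, card_univ, Fintype.card_fin]
        rw [← mul_assoc (Tr m).card, card_Tr_mul]
    _ ≤ (2 * m).choose m * (nn m * nn m) := by
        rw [hm] at hF1
        exact Nat.mul_le_mul_right _ hF1
    _ = _ := by ring

lemma Hf_empty (h : ∀ m, Fintype.card V ≠ 2 * m) : Hf V = ∅ := by
  classical
  unfold Hf
  rw [Finset.filter_eq_empty_iff]
  rintro T _ ⟨-, s, u, B, -, hB⟩
  exact h B.card hB.symm

end Pool.Agent.R391.FV
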