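import Pool.Agent.R391.FV.Anal

set_option autoImplicit false
set_option linter.unusedSectionVars false

/-! # The limit of the expected proportion of moved vertices -/

namespace Pool.Agent.R391.FV

open Finset Filter Topology

/-- the normalised number of labelled twin branches isomorphic to `(S, r)` -/
noncomputable def Gt {m : ℕ} (S : SimpleGraph (Fin m)) (r : Fin m) (n : ℕ) : ℝ :=
  ((∑ p ∈ PP (Fin n), (Gs S r p).card : ℕ) : ℝ) / (nn n : ℝ)

lemma Gt_nonneg {m : ℕ} (S : SimpleGraph (Fin m)) (r : Fin m) (n : ℕ) : 0 ≤ Gt S r n := by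
  unfold Gt; positivity

lemma Gt_le {m : ℕ} {S : SimpleGraph (Fin m)} (hS : S.IsTree) (r : Fin m) (n : ℕ) :
    Gt S r n ≤ bb (2 * m) n := by
  unfold Gt bb
  have h := sum_Gs_le (V := Fin n) (r := r) hS
  rw [Fintype.card_fin] at h
  have h' : ((∑ p ∈ PP (Fin n), (Gs S r p).card : ℕ) : ℝ) ≤
      ((n.descFactorial (2 * m) * nn (n - 2 * m) : ℕ) : ℝ) := by exact_mod_cast h
  exact div_le_div_of_nonneg_right h' (by positivity)

lemma Gt_tsum {m : ℕ} {S : SimpleGraph (Fin m)} (hS : S.IsTree) (r : Fin m) (n : ℕ) :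
    Gt S r n = ∑' j : ℕ, (-1 : ℝ) ^ j / ((j + 1).factorial * (AA S r : ℝ) ^ (j + 1)) *
      bb ((j + 2) * m) n := by
  have hm : 1 ≤ m := by
    have := r.2
    omega
  rw [tsum_eq_sum (s := range (2 ^ n))]
  · unfold Gt
    rw [sum_Gs (V := Fin n) (K := 2 ^ n) hS (by rw [Fintype.card_fin]), Fintype.card_fin,
      Finset.sum_div]
    apply Finset.sum_congr rfl
    intro j _
    unfold bb
    rw [mul_div_assoc]
  · intro j hj
    rw [mem_range, not_lt] at hj
    have h1 : n < 2 ^ n := Nat.lt_two_pow_self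
    have h2 : n ≤ (j + 2) * m := by nlinarith
    rw [bb_zero h2, mul_zero]

lemma Gt_tendsto {m : ℕ} {S : SimpleGraph (Fin m)} (hS : S.IsTree) (r : Fin m) :
    Tendsto (Gt S r) atTop
      (𝓝 (Real.exp (-(m : ℝ)) * (1 - Real.exp (-(Real.exp (-(m : ℝ)) / (AA S r : ℝ)))))) := by
  have hA : (1 : ℝ) ≤ AA S r := by exact_mod_cast AA_pos S r
  rw [← (inner_hasSum m (AA S r : ℝ) (by linarith)).tsum_eq]
  have h0 : Gt S r = fun n => ∑' j : ℕ, (-1 : ℝ) ^ j /
      ((j + 1).factorial * (AA S r : ℝ) ^ (j + 1)) * bb ((j + 2) * m) n :=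
    funext fun n => Gt_tsum hS r n
  rw [h0]
  have hsum : Summable (fun j : ℕ => (1 : ℝ) / ((j + 1).factorial : ℝ)) := by
    have h1 := Real.summable_pow_div_factorial 1
    have h2 := (summable_nat_add_iff 1).2 h1
    simpa using h2
  apply tendsto_tsum_of_dominated_convergence hsum
  · intro j
    exact (bb_tendsto _).const_mul _
  · refine Eventually.of_forall fun n j => ?_
    rw [Real.norm_eq_abs, abs_mul, abs_div, abs_pow, abs_neg, abs_one, one_pow,
      abs_of_nonneg (bb_nonneg _ _)]
    have h1 : (0 : ℝ) < ((j + 1).factorial : ℝ) := by exact_mod_cast Nat.factorial_pos _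
    have h2 : (1 : ℝ) ≤ (AA S r : ℝ) ^ (j + 1) := one_le_pow₀ hA
    rw [abs_of_pos (by positivity)]
    calc 1 / (((j + 1).factorial : ℝ) * (AA S r : ℝ) ^ (j + 1)) * bb ((j + 2) * m) n
        ≤ 1 / (((j + 1).factorial : ℝ) * (AA S r : ℝ) ^ (j + 1)) * 1 :=
          mul_le_mul_of_nonneg_left (bb_le_one _ _) (by positivity)
      _ ≤ 1 / ((j + 1).factorial : ℝ) := by
          rw [mul_one]
          apply one_div_le_one_div_of_le h1
          nlinarith

/-- the contribution of the branches with `m` vertices -/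
noncomputable def term (m n : ℕ) : ℝ := (1 / (m.factorial : ℝ)) *
  ∑ S ∈ Tr m, ∑ r : Fin m, (fx S r : ℝ) * Gt S r n

/-- its limit -/
noncomputable def limT (m : ℕ) : ℝ := (1 / (m.factorial : ℝ)) *
  ∑ S ∈ Tr m, ∑ r : Fin m, (fx S r : ℝ) *
    (Real.exp (-(m : ℝ)) * (1 - Real.exp (-(Real.exp (-(m : ℝ)) / (AA S r : ℝ)))))

lemma term_nonneg (m n : ℕ) : 0 ≤ term m n := by
  unfold term
  apply mul_nonneg (by positivity)
  apply Finset.sum_nonneg
  intro S _
  apply Finset.sum_nonneg
  intro r _
  exact mul_nonneg (by positivity) (Gt_nonneg S r n)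

lemma fx_le {m : ℕ} (S : SimpleGraph (Fin m)) (r : Fin m) : fx S r ≤ m := by
  classical
  unfold fx
  refine (card_le_univ _).trans ?_
  rw [Fintype.card_fin]

lemma term_le' (m n : ℕ) : term m n ≤ (m : ℝ) ^ m / m.factorial * bb (2 * m) n := by
  unfold term
  have h1 : ∑ S ∈ Tr m, ∑ r : Fin m, (fx S r : ℝ) * Gt S r n ≤
      ∑ S ∈ Tr m, ∑ r : Fin m, (m : ℝ) * bb (2 * m) n := by
    apply Finset.sum_le_sum
    intro S hS
    apply Finset.sum_le_sum
    intro r _
    apply mul_le_mul _ (Gt_le (mem_Tr.1 hS) r n) (Gt_nonneg S r n) (by positivity)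
    exact_mod_cast fx_le S r
  have h2 : ∑ S ∈ Tr m, ∑ r : Fin m, (m : ℝ) * bb (2 * m) n =
      ((nn m * m : ℕ) : ℝ) * bb (2 * m) n := by
    simp only [Finset.sum_const, nsmul_eq_mul, card_univ, Fintype.card_fin]
    rw [← card_Tr_mul]
    push_cast
    ring
  have h3 : ((nn m * m : ℕ) : ℝ) ≤ (m : ℝ) ^ m := by
    rcases Nat.eq_zero_or_pos m with h | h
    · subst h
      simp
    · rw [mul_nn m h]
      push_cast
      exact le_rfl
  rw [h2] at h1
  have h4 : ((nn m * m : ℕ) : ℝ) * bb (2 * m) n ≤ (m : ℝ) ^ m * bb (2 * m) n :=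
    mul_le_mul_of_nonneg_right h3 (bb_nonneg _ _)
  calc 1 / (m.factorial : ℝ) * ∑ S ∈ Tr m, ∑ r : Fin m, (fx S r : ℝ) * Gt S r n
      ≤ 1 / (m.factorial : ℝ) * ((m : ℝ) ^ m * bb (2 * m) n) :=
        mul_le_mul_of_nonneg_left (h1.trans h4) (by positivity)
    _ = _ := by ring

/-- the dominating sequence -/
noncomputable def dom (m : ℕ) : ℝ := (2 * m + 1) * (Real.exp 1 / 4) ^ m

lemma term_le (m n : ℕ) : term m n ≤ dom m := by
  refine (term_le' m n).trans ?_
  have h1 : (m : ℝ) ^ m / m.factorial ≤ Real.exp 1 ^ m := by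
    rw [← Real.exp_nat_mul, mul_one]
    exact Real.pow_div_factorial_le_exp _ (by positivity) m
  have h2 := bb_le (2 * m) n
  calc (m : ℝ) ^ m / m.factorial * bb (2 * m) n
      ≤ Real.exp 1 ^ m * (((2 * m : ℕ) + 1) / 2 ^ (2 * m)) :=
        mul_le_mul h1 h2 (bb_nonneg _ _) (by positivity)
    _ = dom m := by
        unfold dom
        rw [pow_mul, div_pow]
        push_cast
        norm_num
        ring

lemma dom_summable : Summable dom := by
  have hr : ‖Real.exp 1 / 4‖ < 1 := by
    rw [Real.norm_eq_abs, abs_of_pos (by positivity), div_lt_one (by norm_num)]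
    have := Real.exp_one_lt_d9
    linarith
  have h1 := summable_pow_mul_geometric_of_norm_lt_one 1 hr
  have h2 := summable_geometric_of_norm_lt_one hr
  have h3 := (h1.mul_left 2).add h2
  refine h3.congr ?_
  intro m
  unfold dom
  ring

lemma term_tendsto (m : ℕ) : Tendsto (term m) atTop (𝓝 (limT m)) := by
  unfold limT
  have h : term m = fun n => (1 / (m.factorial : ℝ)) *
      ∑ S ∈ Tr m, ∑ r : Fin m, (fx S r : ℝ) * Gt S r n := rfl
  rw [h]
  apply Tendsto.const_mul
  apply tendsto_finsetSum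
  intro S hS
  apply tendsto_finsetSum
  intro r _
  exact (Gt_tendsto (mem_Tr.1 hS) r).const_mul _

lemma limT_nonneg (m : ℕ) : 0 ≤ limT m :=
  ge_of_tendsto' (term_tendsto m) (term_nonneg m)

lemma limT_le (m : ℕ) : limT m ≤ dom m :=
  le_of_tendsto' (term_tendsto m) (term_le m)

lemma limT_summable : Summable limT :=
  Summable.of_nonneg_of_le limT_nonneg limT_le dom_summable

lemma TW_eq (n : ℕ) : ((TW (Fin n)).card : ℝ) / nn n = ∑' m, term m n := by
  rw [tsum_eq_sum (s := range (n + 1))]
  · rw [card_TW, Fintype.card_fin, Finset.sum_div]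
    apply Finset.sum_congr rfl
    intro m _
    unfold term
    rw [mul_div_assoc, Finset.sum_div]
    congr 1
    apply Finset.sum_congr rfl
    intro S _
    rw [Finset.sum_div]
    apply Finset.sum_congr rfl
    intro r _
    unfold Gt
    rw [mul_div_assoc]
  · intro m hm
    rw [mem_range, not_lt] at hm
    apply le_antisymm _ (term_nonneg m n)
    refine (term_le' m n).trans ?_
    rw [bb_zero (by omega), mul_zero]

lemma TW_tendsto : Tendsto (fun n => ((TW (Fin n)).card : ℝ) / nn n) atTop
    (𝓝 (∑' m, limT m)) := by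
  simp_rw [TW_eq]
  apply tendsto_tsum_of_dominated_convergence dom_summable term_tendsto
  refine Eventually.of_forall fun n m => ?_
  rw [Real.norm_eq_abs, abs_of_nonneg (term_nonneg m n)]
  exact term_le m n

/-! ### Trees with a branch of half of the vertices are rare -/

lemma cb_sq (m : ℕ) : m.centralBinom ^ 2 * (2 * m + 1) ≤ 16 ^ m := by
  induction m with
  | zero => simp
  | succ m ih =>
    have h := Nat.succ_mul_centralBinom_succ m
    have h1 : (m + 1) ^ 2 * ((m + 1).centralBinom ^ 2 * (2 * (m + 1) + 1)) ≤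
        (m + 1) ^ 2 * 16 ^ (m + 1) := by
      calc (m + 1) ^ 2 * ((m + 1).centralBinom ^ 2 * (2 * (m + 1) + 1))
          = ((m + 1) * (m + 1).centralBinom) ^ 2 * (2 * m + 3) := by ring
        _ = (m.centralBinom ^ 2 * (2 * m + 1)) * (4 * (2 * m + 1) * (2 * m + 3)) := by
            rw [h]; ring
        _ ≤ 16 ^ m * (4 * (2 * m + 1) * (2 * m + 3)) := Nat.mul_le_mul_right _ ih
        _ ≤ 16 ^ m * (16 * (m + 1) ^ 2) := by
            apply Nat.mul_le_mul_left
            nlinarith
        _ = _ := by ring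
    exact Nat.le_of_mul_le_mul_left h1 (by positivity)

/-- the normalised number of pairs (tree with a half branch, vertex) -/
noncomputable def err (n : ℕ) : ℝ := ((n * (Hf (Fin n)).card : ℕ) : ℝ) / nn n

lemma err_nonneg (n : ℕ) : 0 ≤ err n := by unfold err; positivity

lemma err_le (n : ℕ) : err n ≤ 4 / Real.sqrt (n + 1) := by
  have h0 : 0 ≤ 4 / Real.sqrt ((n : ℝ) + 1) := by positivity
  by_cases hex : ∃ m, n = 2 * m
  · obtain ⟨m, hm⟩ := hex
    rcases Nat.eq_zero_or_pos m with h | h
    · subst h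
      subst hm
      unfold err
      simp
    · obtain ⟨k, rfl⟩ : ∃ k, m = k + 1 := ⟨m - 1, by omega⟩
      have h1 := card_Hf_le (V := Fin n) (m := k + 1) (by rw [Fintype.card_fin]; exact hm)
      have hpos : (0 : ℝ) < Real.sqrt ((n : ℝ) + 1) := Real.sqrt_pos.2 (by positivity)
      have h2 : ((k + 1).centralBinom : ℝ) * Real.sqrt ((n : ℝ) + 1) ≤ 4 ^ (k + 1) := by
        have h3 := cb_sq (k + 1)
        have h4 : (((k + 1).centralBinom : ℝ) * Real.sqrt ((n : ℝ) + 1)) ^ 2 ≤
            ((4 : ℝ) ^ (k + 1)) ^ 2 := by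
          rw [mul_pow, Real.sq_sqrt (by positivity), hm]
          have h5 : ((k + 1).centralBinom ^ 2 * (2 * (k + 1) + 1) : ℕ) ≤ (4 ^ (k + 1)) ^ 2 := by
            rw [← pow_mul, mul_comm (k + 1) 2, pow_mul]
            exact h3
          exact_mod_cast h5
        exact le_of_sq_le_sq h4 (by positivity)
      have h5 : err n ≤ 4 * ((k + 1).centralBinom : ℝ) / 4 ^ (k + 1) := by
        unfold err
        have e1 : nn n = (2 * (k + 1)) ^ (2 * k + 1) := by
          rw [hm]
          have : 2 * (k + 1) = (2 * k + 1) + 1 := by ring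
          rw [this]
          rfl
        have e2 : nn (k + 1) = (k + 1) ^ k := rfl
        rw [e2] at h1
        have hn0 : (0 : ℝ) < nn n := by exact_mod_cast nn_pos (by omega : 1 ≤ n)
        rw [div_le_div_iff₀ hn0 (by positivity)]
        have h6 : n * (Hf (Fin n)).card * 4 ^ (k + 1) ≤
            4 * (k + 1).centralBinom * nn n := by
          calc n * (Hf (Fin n)).card * 4 ^ (k + 1)
              ≤ n * ((2 * (k + 1)).choose (k + 1) * (k + 1) ^ k * (k + 1) ^ k) * 4 ^ (k + 1) := by
                gcongr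
            _ = 4 * (2 * (k + 1)).choose (k + 1) * (2 * (k + 1)) ^ (2 * k + 1) := by
                have e3 : (4 : ℕ) ^ (k + 1) = 2 ^ (2 * k) * 4 := by
                  rw [pow_succ, pow_mul]
                  norm_num
                rw [e3]
                rw [mul_pow 2 (k + 1), pow_succ 2 (2 * k), pow_succ (k + 1) (2 * k),
                  show 2 * k = k + k by ring, pow_add (k + 1) k k]
                rw [hm]
                ring
            _ = 4 * (k + 1).centralBinom * nn n := by
                rw [e1]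
                rfl
        exact_mod_cast h6
      refine h5.trans ?_
      rw [div_le_div_iff₀ (by positivity) hpos]
      nlinarith
  · push Not at hex
    have : Hf (Fin n) = ∅ := Hf_empty (by rw [Fintype.card_fin]; exact hex)
    unfold err
    rw [this]
    simpa using h0

lemma err_tendsto : Tendsto err atTop (𝓝 0) := by
  have h1 : Tendsto (fun n : ℕ => 4 / Real.sqrt ((n : ℝ) + 1)) atTop (𝓝 0) := by
    apply Tendsto.const_div_atTop
    apply Real.tendsto_sqrt_atTop.comp
    exact tendsto_atTop_add_const_right _ _ tendsto_natCast_atTop_atTop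
  exact squeeze_zero err_nonneg err_le h1

/-! ### Moved vertices -/

open Classical in
/-- the pairs (tree, moved vertex) -/
noncomputable def MV (n : ℕ) : Finset (SimpleGraph (Fin n) × Fin n) :=
  (PP (Fin n)).filter (fun p => ∃ σ : p.1 ≃g p.1, σ p.2 ≠ p.2)

lemma MV_tendsto : Tendsto (fun n => ((MV n).card : ℝ) / nn n) atTop (𝓝 (∑' m, limT m)) := by
  classical
  have h1 : ∀ n, ((TW (Fin n)).card : ℝ) / nn n ≤ ((MV n).card : ℝ) / nn n := by
    intro n
    apply div_le_div_of_nonneg_right _ (by positivity)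
    have : (TW (Fin n)).card ≤ (MV n).card := by
      apply card_le_card
      intro p hp
      unfold TW at hp
      unfold MV
      rw [mem_filter] at hp ⊢
      refine ⟨hp.1, ?_⟩
      obtain ⟨m, S, r, s, f, w, h1, h2, h3⟩ := hp.2
      rw [← h3]
      exact twin_moved (mem_PP.1 hp.1).connected h1 h2 w
    exact_mod_cast this
  have h2 : ∀ n, ((MV n).card : ℝ) / nn n ≤ ((TW (Fin n)).card : ℝ) / nn n + err n := by
    intro n
    unfold err
    rw [← add_div]
    apply div_le_div_of_nonneg_right _ (by positivity)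
    have h3 : MV n ⊆ TW (Fin n) ∪ (Hf (Fin n)) ×ˢ (univ : Finset (Fin n)) := by
      intro p hp
      unfold MV at hp
      rw [mem_filter] at hp
      obtain ⟨hp1, σ, hσ⟩ := hp
      rw [mem_union]
      by_cases hh : Half p.1
      · right
        rw [mem_product]
        refine ⟨?_, mem_univ _⟩
        unfold Hf
        rw [mem_filter]
        exact ⟨mem_univ _, mem_PP.1 hp1, hh⟩
      · left
        unfold TW
        rw [mem_filter]
        refine ⟨hp1, ?_⟩
        apply moved_twin (mem_PP.1 hp1) _ σ hσ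
        intro s u B hB hc
        exact hh ⟨s, u, B, hB, hc⟩
    have h4 := (card_le_card h3).trans (card_union_le _ _)
    rw [card_product, card_univ, Fintype.card_fin, mul_comm] at h4
    exact_mod_cast h4
  have h3 : Tendsto (fun n => ((TW (Fin n)).card : ℝ) / nn n + err n) atTop
      (𝓝 (∑' m, limT m)) := by
    have := TW_tendsto.add err_tendsto
    rwa [add_zero] at this
  exact tendsto_of_tendsto_of_tendsto_of_le_of_le TW_tendsto h3 h1 h2

end Pool.Agent.R391.FV
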