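import Pool.Agent.R391.FV.Main

set_option autoImplicit false
set_option linter.unusedSectionVars false

/-! # Numerical bounds for the limit -/

namespace Pool.Agent.R391.FV

open Finset Filter Topology

lemma limT_of_trivial {m : ℕ} (h : ∀ (S : SimpleGraph (Fin m)) (r : Fin m) (α : S ≃g S), α r = r →
    ∀ w, α w = w) : limT m = (((nn m * m : ℕ) : ℝ) / m.factorial) *
      (Real.exp (-(m : ℝ)) * (1 - Real.exp (-Real.exp (-(m : ℝ))))) := by
  classical
  have hA : ∀ (S : SimpleGraph (Fin m)) (r : Fin m), AA S r = 1 := by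
    intro S r
    unfold AA
    rw [Nat.card_eq_one_iff_unique]
    refine ⟨⟨fun α β => ?_⟩, ⟨⟨RelIso.refl _, rfl⟩⟩⟩
    apply Subtype.ext
    ext w
    rw [h S r α.1 α.2 w, h S r β.1 β.2 w]
  have hf : ∀ (S : SimpleGraph (Fin m)) (r : Fin m), fx S r = m := by
    intro S r
    unfold fx
    rw [Finset.filter_true_of_mem, card_univ, Fintype.card_fin]
    intro w _ α hα
    exact h S r α hα w
  unfold limT
  have h1 : ∑ S ∈ Tr m, ∑ r : Fin m, (fx S r : ℝ) *
      (Real.exp (-(m : ℝ)) * (1 - Real.exp (-(Real.exp (-(m : ℝ)) / (AA S r : ℝ))))) =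
      ∑ S ∈ Tr m, ∑ r : Fin m, (m : ℝ) *
      (Real.exp (-(m : ℝ)) * (1 - Real.exp (-Real.exp (-(m : ℝ))))) := by
    apply Finset.sum_congr rfl
    intro S _
    apply Finset.sum_congr rfl
    intro r _
    rw [hA, hf, Nat.cast_one, div_one]
  rw [h1]
  simp only [Finset.sum_const, nsmul_eq_mul, card_univ, Fintype.card_fin]
  rw [← card_Tr_mul]
  push_cast
  ring

lemma limT_one : limT 1 = Real.exp (-1) * (1 - Real.exp (-Real.exp (-1))) := by
  rw [limT_of_trivial (fun S r α _ w => Subsingleton.elim _ _)]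
  simp [nn]

lemma limT_two : limT 2 = 2 * (Real.exp (-2) * (1 - Real.exp (-Real.exp (-2)))) := by
  rw [limT_of_trivial]
  · simp [nn]
    norm_num
  · intro S r α hα w
    by_contra hw
    have hwr : w ≠ r := by
      rintro rfl
      exact hw hα
    have h1 : α w ≠ α r := fun h => hwr (α.injective h)
    rw [hα] at h1
    have h2 : α w = w := by
      have := (α w).2
      have := w.2
      have := r.2
      apply Fin.ext
      have h3 : (α w : ℕ) ≠ (r : ℕ) := fun h => h1 (Fin.ext h)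
      have h4 : (w : ℕ) ≠ (r : ℕ) := fun h => hwr (Fin.ext h)
      omega
    exact hw h2

lemma limT_zero : limT 0 = 0 := by
  unfold limT
  simp

lemma limT_le' (m : ℕ) : limT m ≤ (m : ℝ) ^ m / m.factorial * (Real.exp (-(m : ℝ)) *
    Real.exp (-(m : ℝ))) := by
  unfold limT
  have h1 : ∑ S ∈ Tr m, ∑ r : Fin m, (fx S r : ℝ) *
      (Real.exp (-(m : ℝ)) * (1 - Real.exp (-(Real.exp (-(m : ℝ)) / (AA S r : ℝ))))) ≤
      ∑ S ∈ Tr m, ∑ r : Fin m, (m : ℝ) * (Real.exp (-(m : ℝ)) * Real.exp (-(m : ℝ))) := by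
    apply Finset.sum_le_sum
    intro S hS
    apply Finset.sum_le_sum
    intro r _
    have hA : (1 : ℝ) ≤ AA S r := by exact_mod_cast AA_pos S r
    have hx : Real.exp (-(m : ℝ)) / (AA S r : ℝ) ≤ Real.exp (-(m : ℝ)) :=
      div_le_self (Real.exp_pos _).le hA
    have hx0 : 0 ≤ Real.exp (-(m : ℝ)) / (AA S r : ℝ) := by positivity
    have h2 : 1 - Real.exp (-(Real.exp (-(m : ℝ)) / (AA S r : ℝ))) ≤ Real.exp (-(m : ℝ)) := by
      have := Real.add_one_le_exp (-(Real.exp (-(m : ℝ)) / (AA S r : ℝ)))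
      linarith
    have h3 : 0 ≤ 1 - Real.exp (-(Real.exp (-(m : ℝ)) / (AA S r : ℝ))) := by
      have : Real.exp (-(Real.exp (-(m : ℝ)) / (AA S r : ℝ))) ≤ 1 :=
        Real.exp_le_one_iff.2 (by linarith)
      linarith
    have h4 : (fx S r : ℝ) ≤ m := by exact_mod_cast fx_le S r
    apply mul_le_mul h4 _ (by positivity) (by positivity)
    exact mul_le_mul_of_nonneg_left h2 (Real.exp_pos _).le
  have h2 : ∑ S ∈ Tr m, ∑ r : Fin m, (m : ℝ) * (Real.exp (-(m : ℝ)) * Real.exp (-(m : ℝ))) =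
      ((nn m * m : ℕ) : ℝ) * (Real.exp (-(m : ℝ)) * Real.exp (-(m : ℝ))) := by
    simp only [Finset.sum_const, nsmul_eq_mul, card_univ, Fintype.card_fin]
    rw [← card_Tr_mul]
    push_cast
    ring
  have h3 : ((nn m * m : ℕ) : ℝ) ≤ (m : ℝ) ^ m := by
    rcases Nat.eq_zero_or_pos m with h | h
    · subst h
      simp
    · rw [mul_nn m h]
      push_cast
      exact le_rfl
  rw [h2] at h1
  have h4 := mul_le_mul_of_nonneg_right h3
    (by positivity : 0 ≤ Real.exp (-(m : ℝ)) * Real.exp (-(m : ℝ)))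
  calc _ ≤ 1 / (m.factorial : ℝ) * ((m : ℝ) ^ m * (Real.exp (-(m : ℝ)) * Real.exp (-(m : ℝ)))) :=
        mul_le_mul_of_nonneg_left (h1.trans h4) (by positivity)
    _ = _ := by ring

/-- `m ^ m e ^ (-m) / m!` is decreasing -/
lemma uu_le (k : ℕ) : ((k + 3 : ℕ) : ℝ) ^ (k + 3) / (k + 3).factorial * Real.exp (-((k + 3 : ℕ) : ℝ)) ≤
    9 / 2 * Real.exp (-3) := by
  induction k with
  | zero =>
    apply le_of_eq
    norm_num [Nat.factorial]
  | succ k ih =>
    refine le_trans ?_ ih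
    have h1 : (((k + 1 + 3 : ℕ) : ℝ)) ^ (k + 1 + 3) / (k + 1 + 3).factorial =
        ((k + 1 + 3 : ℕ) : ℝ) ^ (k + 3) / (k + 3).factorial := by
      have e1 : k + 1 + 3 = (k + 3) + 1 := by ring
      rw [e1, Nat.factorial_succ, pow_succ]
      push_cast
      have : ((k + 3).factorial : ℝ) ≠ 0 := by exact_mod_cast (Nat.factorial_pos _).ne'
      have : ((k : ℝ) + 3 + 1) ≠ 0 := by positivity
      field_simp
    have h2 : ((k + 1 + 3 : ℕ) : ℝ) ^ (k + 3) ≤ ((k + 3 : ℕ) : ℝ) ^ (k + 3) * Real.exp 1 := by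
      have h3 := Real.add_one_le_exp (1 / ((k + 3 : ℕ) : ℝ))
      have h4 : (1 / ((k + 3 : ℕ) : ℝ) + 1) ^ (k + 3) ≤ Real.exp 1 := by
        calc (1 / ((k + 3 : ℕ) : ℝ) + 1) ^ (k + 3) ≤ Real.exp (1 / ((k + 3 : ℕ) : ℝ)) ^ (k + 3) :=
              pow_le_pow_left₀ (by positivity) h3 _
          _ = Real.exp 1 := by
              rw [← Real.exp_nat_mul]
              congr 1
              have : (((k + 3 : ℕ)) : ℝ) ≠ 0 := by positivity
              field_simp
      have h5 : ((k + 1 + 3 : ℕ) : ℝ) = ((k + 3 : ℕ) : ℝ) * (1 / ((k + 3 : ℕ) : ℝ) + 1) := by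
        have : (((k + 3 : ℕ)) : ℝ) ≠ 0 := by positivity
        field_simp
        push_cast
        ring
      rw [h5, mul_pow]
      exact mul_le_mul_of_nonneg_left h4 (by positivity)
    rw [h1]
    have h6 : Real.exp (-((k + 3 : ℕ) : ℝ)) = Real.exp 1 * Real.exp (-((k + 1 + 3 : ℕ) : ℝ)) := by
      rw [← Real.exp_add]
      congr 1
      push_cast
      ring
    rw [h6]
    have h7 : (0 : ℝ) < ((k + 3).factorial : ℝ) := by exact_mod_cast Nat.factorial_pos _
    have h8 : ((k + 1 + 3 : ℕ) : ℝ) ^ (k + 3) / (k + 3).factorial ≤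
        ((k + 3 : ℕ) : ℝ) ^ (k + 3) * Real.exp 1 / (k + 3).factorial :=
      div_le_div_of_nonneg_right h2 h7.le
    calc ((k + 1 + 3 : ℕ) : ℝ) ^ (k + 3) / (k + 3).factorial * Real.exp (-((k + 1 + 3 : ℕ) : ℝ))
        ≤ ((k + 3 : ℕ) : ℝ) ^ (k + 3) * Real.exp 1 / (k + 3).factorial *
          Real.exp (-((k + 1 + 3 : ℕ) : ℝ)) := mul_le_mul_of_nonneg_right h8 (Real.exp_pos _).le
      _ = _ := by ring

lemma limT_tail (k : ℕ) : limT (k + 3) ≤ 9 / 2 * Real.exp (-3) * Real.exp (-3) * Real.exp (-1) ^ k := by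
  refine (limT_le' (k + 3)).trans ?_
  rw [← mul_assoc]
  have h1 : Real.exp (-((k + 3 : ℕ) : ℝ)) = Real.exp (-3) * Real.exp (-1) ^ k := by
    rw [← Real.exp_nat_mul, ← Real.exp_add]
    congr 1
    push_cast
    ring
  calc _ ≤ 9 / 2 * Real.exp (-3) * Real.exp (-((k + 3 : ℕ) : ℝ)) :=
        mul_le_mul_of_nonneg_right (uu_le k) (Real.exp_pos _).le
    _ = _ := by rw [h1]; ring

lemma lim_split : ∑' m, limT m = limT 1 + limT 2 + ∑' k, limT (k + 3) := by
  rw [← limT_summable.sum_add_tsum_nat_add 3]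
  simp only [Finset.sum_range_succ, Finset.sum_range_zero, limT_zero]
  ring

lemma tail_le : ∑' k, limT (k + 3) ≤
    9 / 2 * Real.exp (-3) * Real.exp (-3) * (1 - Real.exp (-1))⁻¹ := by
  have h0 : 0 ≤ Real.exp (-1) := (Real.exp_pos _).le
  have h1 : Real.exp (-1) < 1 := by
    rw [Real.exp_lt_one_iff]
    norm_num
  have hs := (hasSum_geometric_of_lt_one h0 h1).mul_left (9 / 2 * Real.exp (-3) * Real.exp (-3))
  rw [← hs.tsum_eq]
  exact Summable.tsum_le_tsum limT_tail ((summable_nat_add_iff 3).2 limT_summable) hs.summable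

lemma tail_nonneg : 0 ≤ ∑' k, limT (k + 3) := tsum_nonneg fun k => limT_nonneg _

theorem lim_bounds : 0.14 < ∑' m, limT m ∧ ∑' m, limT m < 0.17 := by
  have e1 : Real.exp (-1) < 0.36788 := by
    rw [Real.exp_neg, inv_lt_comm₀ (Real.exp_pos _) (by norm_num)]
    have := Real.exp_one_gt_d9
    refine lt_trans ?_ this
    norm_num
  have e2 : 0.36787 < Real.exp (-1) := by
    rw [Real.exp_neg, lt_inv_comm₀ (by norm_num) (Real.exp_pos _)]
    have := Real.exp_one_lt_d9
    refine lt_trans this ?_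
    norm_num
  have hx : Real.exp (-2) = Real.exp (-1) ^ 2 := by
    rw [← Real.exp_nat_mul]
    norm_num
  have hz : Real.exp (-3) = Real.exp (-1) ^ 3 := by
    rw [← Real.exp_nat_mul]
    norm_num
  have ht := tail_le
  have ht0 := tail_nonneg
  rw [lim_split, limT_one, limT_two]
  rw [hz] at ht
  set x := Real.exp (-1) with hxdef
  rw [hx]
  have hx0 : 0 < x := Real.exp_pos _
  -- bounds for `1 - exp (-t)`
  have up1 : (0.687 : ℝ) ≤ Real.exp (-x) := by
    have h := Real.one_sub_div_pow_le_exp_neg (n := 10) (t := x) (by norm_num; linarith)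
    refine le_trans ?_ h
    have h2 : (0.963212 : ℝ) ≤ 1 - x / ((10 : ℕ) : ℝ) := by
      push_cast
      linarith
    calc (0.687 : ℝ) ≤ 0.963212 ^ 10 := by norm_num
      _ ≤ _ := pow_le_pow_left₀ (by norm_num) h2 10
  have up2 : 1 - Real.exp (-x ^ 2) ≤ x ^ 2 := by
    have := Real.add_one_le_exp (-x ^ 2)
    linarith
  have lo1 : Real.exp (-x) ≤ 1 - 0.3033 := by
    have h := Real.quadratic_le_exp_of_nonneg hx0.le
    rw [Real.exp_neg, inv_le_comm₀ (Real.exp_pos _) (by norm_num)]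
    refine le_trans ?_ h
    norm_num
    nlinarith
  have lo2 : Real.exp (-x ^ 2) ≤ 1 - 0.126 := by
    have h := Real.quadratic_le_exp_of_nonneg (sq_nonneg x)
    rw [Real.exp_neg, inv_le_comm₀ (Real.exp_pos _) (by norm_num)]
    refine le_trans ?_ h
    have : (0.1353 : ℝ) ≤ x ^ 2 := by nlinarith
    norm_num
    nlinarith
  have hx2 : x ^ 2 ≤ 0.13534 := by nlinarith
  have hx2' : 0.13532 ≤ x ^ 2 := by nlinarith
  constructor
  · have a1 : 0.36787 * 0.3033 ≤ x * (1 - Real.exp (-x)) := by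
      apply mul_le_mul e2.le (by linarith) (by norm_num) hx0.le
    have a2 : 0.13532 * 0.126 ≤ x ^ 2 * (1 - Real.exp (-x ^ 2)) := by
      apply mul_le_mul hx2' (by linarith) (by norm_num) (by positivity)
    nlinarith
  · have a1 : x * (1 - Real.exp (-x)) ≤ 0.36788 * 0.313 := by
      apply mul_le_mul e1.le (by linarith) (by linarith [lo1]) (by norm_num)
    have a2 : x ^ 2 * (1 - Real.exp (-x ^ 2)) ≤ 0.13534 * 0.13534 := by
      apply mul_le_mul hx2 (up2.trans hx2) (by linarith [lo2]) (by norm_num)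
    have a3 : 9 / 2 * x ^ 3 * x ^ 3 * (1 - x)⁻¹ ≤ 0.0178 := by
      rw [← div_eq_mul_inv, div_le_iff₀ (by linarith)]
      have h3 : x ^ 3 * x ^ 3 = x ^ 2 * x ^ 2 * x ^ 2 := by ring
      have h4 : x ^ 2 * x ^ 2 * x ^ 2 ≤ 0.13534 * 0.13534 * 0.13534 := by gcongr
      nlinarith
    linarith

end Pool.Agent.R391.FV
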