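import Pool.Agent.R391.FV.Count

set_option autoImplicit false
set_option linter.unusedSectionVars false

/-! # From vertices in twin branches to labelled branches -/

namespace Pool.Agent.R391.FV

open Finset

variable {V : Type} [Fintype V] [DecidableEq V]

/-- `v` is in a branch with a twin. -/
def IT (T : SimpleGraph V) (v : V) : Prop :=
  ∃ (m : ℕ) (S : SimpleGraph (Fin m)) (r : Fin m) (s : V) (f : Fin m → V) (w : Fin m),
      IsBr T s S r f ∧ Tw T s S r f ∧ f w = v

/-- the data: rooted graph, base point, labelled branch, rigid vertex -/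
abbrev Dat (V : Type) (m : ℕ) : Type :=
  SimpleGraph (Fin m) × Fin m × V × (Fin m → V) × Fin m

/-- the condition on the data -/
def Ok {m : ℕ} (T : SimpleGraph V) (q : Dat V m) : Prop :=
  IsBr T q.2.2.1 q.1 q.2.1 q.2.2.2.1 ∧ Tw T q.2.2.1 q.1 q.2.1 q.2.2.2.1 ∧
    Rig q.1 q.2.1 q.2.2.2.2

open Classical in
/-- the data for the vertex `v` -/
noncomputable def EE (m : ℕ) (T : SimpleGraph V) (v : V) : Finset (Dat V m) :=
  univ.filter (fun q => Ok T q ∧ q.2.2.2.1 q.2.2.2.2 = v)

lemma mem_EE {m : ℕ} {T : SimpleGraph V} {v : V} {q : Dat V m} :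
    q ∈ EE m T v ↔ Ok T q ∧ q.2.2.2.1 q.2.2.2.2 = v := by simp [EE]

/-- relabelling -/
def rel {m : ℕ} (q : Dat V m) (π : Equiv.Perm (Fin m)) : Dat V m :=
  (q.1.comap π, π.symm q.2.1, q.2.2.1, fun a => q.2.2.2.1 (π a), π.symm q.2.2.2.2)

lemma isBr_rel {m : ℕ} {T : SimpleGraph V} {s : V} {S : SimpleGraph (Fin m)} {r : Fin m}
    {f : Fin m → V} (hf : IsBr T s S r f) (π : Equiv.Perm (Fin m)) :
    IsBr T s (S.comap π) (π.symm r) (fun a => f (π a)) := by
  refine ⟨fun a b h => π.injective (hf.inj h), fun a => hf.avoid _, ?_, ?_⟩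
  · intro a b
    exact hf.adj _ _
  · intro a x hx
    rw [hf.out (π a) x (fun b hb => hx (π.symm b) (by rw [π.apply_symm_apply]; exact hb))]
    constructor
    · rintro ⟨h1, h2⟩
      exact ⟨by rw [← h1, π.symm_apply_apply], h2⟩
    · rintro ⟨h1, h2⟩
      exact ⟨by rw [h1, π.apply_symm_apply], h2⟩

lemma image_rel {m : ℕ} (f : Fin m → V) (π : Equiv.Perm (Fin m)) :
    univ.image (fun a => f (π a)) = univ.image f := by
  ext x
  rw [mem_im, mem_im]
  constructor
  · rintro ⟨a, ha⟩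
    exact ⟨π a, ha⟩
  · rintro ⟨a, ha⟩
    exact ⟨π.symm a, by rw [π.apply_symm_apply]; exact ha⟩

lemma rig_rel {m : ℕ} {S : SimpleGraph (Fin m)} {r w : Fin m} (h : Rig S r w)
    (π : Equiv.Perm (Fin m)) : Rig (S.comap π) (π.symm r) (π.symm w) := by
  intro α hα
  let e : S.comap π ≃g S := ⟨π, fun {a b} => Iff.rfl⟩
  have he : ∀ a, e a = π a := fun a => rfl
  let β : S ≃g S := (e.symm.trans α).trans e
  have hβ : ∀ a, β a = π (α (π.symm a)) := fun a => rfl
  have h1 : β r = r := by rw [hβ, hα, π.apply_symm_apply]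
  have h2 := h β h1
  rw [hβ] at h2
  apply π.injective
  rw [h2, π.apply_symm_apply]

lemma rel_mem {m : ℕ} {T : SimpleGraph V} {v : V} {q : Dat V m} (hq : q ∈ EE m T v)
    (π : Equiv.Perm (Fin m)) : rel q π ∈ EE m T v := by
  rw [mem_EE] at hq ⊢
  obtain ⟨⟨h1, ⟨g, h2, h3⟩, h4⟩, h5⟩ := hq
  refine ⟨⟨isBr_rel h1 π, ⟨fun a => g (π a), isBr_rel h2 π, ?_⟩, rig_rel h4 π⟩, ?_⟩
  · show univ.image (fun a => g (π a)) ≠ univ.image (fun a => q.2.2.2.1 (π a))
    rw [image_rel, image_rel]
    exact h3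
  · show q.2.2.2.1 (π (π.symm q.2.2.2.2)) = v
    rw [π.apply_symm_apply]
    exact h5

lemma EE_card {m : ℕ} {T : SimpleGraph V} (hT : T.Connected) {v : V}
    (hne : (EE m T v).Nonempty) : (EE m T v).card = m.factorial := by
  classical
  obtain ⟨q, hq⟩ := hne
  have h0 : (univ : Finset (Equiv.Perm (Fin m))).card = m.factorial := by
    rw [card_univ, Fintype.card_perm, Fintype.card_fin]
  rw [← h0]
  symm
  apply Finset.card_bij (fun (π : Equiv.Perm (Fin m)) _ => rel q π)
  · intro π _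
    exact rel_mem hq π
  · intro π _ π' _ h
    ext a
    have h1 := congrArg (fun x : Dat V m => x.2.2.2.1 a) h
    have h2 := (mem_EE.1 hq).1.1.inj h1
    rw [h2]
  · intro q' hq'
    obtain ⟨⟨h1, h2, h3⟩, h4⟩ := mem_EE.1 hq
    obtain ⟨⟨h1', h2', h3'⟩, h4'⟩ := mem_EE.1 hq'
    obtain ⟨S, r, s, f, w⟩ := q
    obtain ⟨S', r', s', f', w'⟩ := q'
    simp only at h1 h2 h3 h4 h1' h2' h3' h4'
    have him : univ.image f' = univ.image f :=
      uniq hT h1' h2' h3' h1 h2 h3 (h4'.trans h4.symm)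
    have hbr := h1'.branch
    rw [him] at hbr
    obtain ⟨hr, hs⟩ := hbr.unique h1.branch
    have hex : ∀ a, ∃ b, f b = f' a := by
      intro a
      have := im_self f' a
      rw [him] at this
      exact mem_im.1 this
    choose β hβ using hex
    have hinj : Function.Injective β := by
      intro a b hab
      apply h1'.inj
      rw [← hβ a, ← hβ b, hab]
    have hbij : Function.Bijective β := Finite.injective_iff_bijective.1 hinj
    refine ⟨Equiv.ofBijective β hbij, mem_univ _, ?_⟩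
    unfold rel
    simp only [Prod.mk.injEq]
    refine ⟨?_, ?_, hs.symm, ?_, ?_⟩
    · ext a b
      show S.Adj (β a) (β b) ↔ S'.Adj a b
      rw [← h1.adj, hβ, hβ, h1'.adj]
    · rw [Equiv.symm_apply_eq]
      show r = β r'
      apply h1.inj
      rw [hβ, hr]
    · funext a
      exact hβ a
    · rw [Equiv.symm_apply_eq]
      show w = β w'
      apply h1.inj
      rw [hβ, h4, h4']

lemma EE_eq {m m' : ℕ} {T : SimpleGraph V} (hT : T.Connected) {v : V}
    (hne : (EE m T v).Nonempty) (hne' : (EE m' T v).Nonempty) : m = m' := by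
  obtain ⟨q, hq⟩ := hne
  obtain ⟨q', hq'⟩ := hne'
  obtain ⟨⟨h1, h2, h3⟩, h4⟩ := mem_EE.1 hq
  obtain ⟨⟨h1', h2', h3'⟩, h4'⟩ := mem_EE.1 hq'
  have him := uniq hT h1' h2' h3' h1 h2 h3 (h4'.trans h4.symm)
  rw [← h1.card, ← h1'.card, him]

open Classical in
lemma sum_EE {T : SimpleGraph V} (hT : T.IsTree) (v : V) :
    ∑ m ∈ range (Fintype.card V + 1), ((EE m T v).card : ℝ) / m.factorial =
      if IT T v then 1 else 0 := by
  split_ifs with h
  · obtain ⟨m, S, r, s, f, w, h1, h2, h3, h4⟩ := twin_rigid hT h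
    have hne : (EE m T v).Nonempty := ⟨(S, r, s, f, w), mem_EE.2 ⟨⟨h1, h2, h3⟩, h4⟩⟩
    rw [Finset.sum_eq_single m]
    · rw [EE_card hT.connected hne, div_self]
      exact_mod_cast (Nat.factorial_pos m).ne'
    · intro k _ hk
      have : EE k T v = ∅ := by
        by_contra hcon
        exact hk (EE_eq hT.connected (nonempty_iff_ne_empty.2 hcon) hne)
      rw [this]
      simp
    · intro hm
      exfalso
      apply hm
      rw [mem_range]
      have := card_le_univ (univ.image f)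
      rw [h1.card] at this
      omega
  · apply Finset.sum_eq_zero
    intro m _
    have : EE m T v = ∅ := by
      rw [Finset.eq_empty_iff_forall_notMem]
      rintro ⟨S, r, s, f, w⟩ hq
      obtain ⟨⟨h1, h2, h3⟩, h4⟩ := mem_EE.1 hq
      exact h ⟨m, S, r, s, f, w, h1, h2, h4⟩
    rw [this]
    simp

open Classical in
/-- the number of vertices fixed by all automorphisms of a rooted tree -/
noncomputable def fx {m : ℕ} (S : SimpleGraph (Fin m)) (r : Fin m) : ℕ :=
  (univ.filter (fun w => Rig S r w)).card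

open Classical in
lemma sum_EE_v (m : ℕ) (T : SimpleGraph V) :
    ∑ v : V, (EE m T v).card =
      ∑ S : SimpleGraph (Fin m), ∑ r : Fin m, ∑ s : V, fx S r * (Gs S r (T, s)).card := by
  have h1 : ∑ v : V, (EE m T v).card = (univ.filter (fun q : Dat V m => Ok T q)).card := by
    rw [Finset.card_eq_sum_card_fiberwise (f := fun q : Dat V m => q.2.2.2.1 q.2.2.2.2)
      (t := univ) (by intro x _; simp)]
    apply Finset.sum_congr rfl
    intro v _
    congr 1
    ext q
    rw [mem_EE]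
    simp
  rw [h1, Finset.card_filter]
  simp_rw [Fintype.sum_prod_type]
  apply Finset.sum_congr rfl
  intro S _
  apply Finset.sum_congr rfl
  intro r _
  apply Finset.sum_congr rfl
  intro s _
  unfold fx Gs
  rw [Finset.card_filter, Finset.card_filter, mul_comm, Finset.sum_mul_sum]
  apply Finset.sum_congr rfl
  intro f _
  apply Finset.sum_congr rfl
  intro w _
  unfold Ok
  simp only
  by_cases h1 : IsBr T s S r f ∧ Tw T s S r f <;> by_cases h2 : Rig S r w
  · rw [if_pos ⟨h1.1, h1.2, h2⟩, if_pos h1, if_pos h2, mul_one]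
  · rw [if_neg (fun h => h2 h.2.2), if_neg h2, mul_zero]
  · rw [if_neg (fun h => h1 ⟨h.1, h.2.1⟩), if_neg h1, zero_mul]
  · rw [if_neg (fun h => h2 h.2.2), if_neg h2, mul_zero]

open Classical in
/-- the pairs (tree, vertex in a twin branch) -/
noncomputable def TW (V : Type) [Fintype V] [DecidableEq V] : Finset (SimpleGraph V × V) :=
  (PP V).filter (fun p => IT p.1 p.2)

open Classical in
/-- the trees on `Fin m` -/
noncomputable def Tr (m : ℕ) : Finset (SimpleGraph (Fin m)) := univ.filter (fun S => S.IsTree)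

lemma mem_Tr {m : ℕ} {S : SimpleGraph (Fin m)} : S ∈ Tr m ↔ S.IsTree := by simp [Tr]

open Classical in
lemma sum_PP {M : Type} [AddCommMonoid M] (F : SimpleGraph V → V → M) :
    ∑ p ∈ PP V, F p.1 p.2 = ∑ T ∈ univ.filter (fun T : SimpleGraph V => T.IsTree), ∑ v, F T v := by
  rw [← Finset.sum_product']
  apply Finset.sum_congr _ (fun _ _ => rfl)
  ext p
  rw [mem_PP]
  simp

theorem card_TW :
    ((TW V).card : ℝ) = ∑ m ∈ range (Fintype.card V + 1), (1 / (m.factorial : ℝ)) *
      ∑ S ∈ Tr m, ∑ r : Fin m, (fx S r : ℝ) * ((∑ p ∈ PP V, (Gs S r p).card : ℕ) : ℝ) := by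
  classical
  have h1 : ((TW V).card : ℝ) = ∑ p ∈ PP V, if IT p.1 p.2 then (1 : ℝ) else 0 := by
    unfold TW
    rw [Finset.card_filter]
    push_cast
    rfl
  have h2 : ∀ p ∈ PP V, (if IT p.1 p.2 then (1 : ℝ) else 0) =
      ∑ m ∈ range (Fintype.card V + 1), ((EE m p.1 p.2).card : ℝ) / m.factorial := by
    intro p hp
    rw [sum_EE (mem_PP.1 hp)]
  rw [h1, Finset.sum_congr rfl h2, Finset.sum_comm]
  apply Finset.sum_congr rfl
  intro m _
  rw [← Finset.sum_div, div_eq_mul_one_div, mul_comm]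
  congr 1
  rw [sum_PP (fun T v => ((EE m T v).card : ℝ))]
  have h3 : ∀ T : SimpleGraph V, ∑ v, ((EE m T v).card : ℝ) =
      ∑ S : SimpleGraph (Fin m), ∑ r : Fin m, ∑ s : V, (fx S r : ℝ) * ((Gs S r (T, s)).card : ℝ) := by
    intro T
    have := congrArg (Nat.cast : ℕ → ℝ) (sum_EE_v m T)
    push_cast at this
    exact this
  simp_rw [h3]
  rw [Finset.sum_comm]
  have h4 : ∑ S ∈ Tr m, ∑ r : Fin m, (fx S r : ℝ) * ((∑ p ∈ PP V, (Gs S r p).card : ℕ) : ℝ) =
      ∑ S : SimpleGraph (Fin m), ∑ r : Fin m, (fx S r : ℝ) *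
        ((∑ p ∈ PP V, (Gs S r p).card : ℕ) : ℝ) := by
    apply Finset.sum_subset (subset_univ _)
    intro S _ hS
    rw [mem_Tr] at hS
    apply Finset.sum_eq_zero
    intro r _
    have : ∑ p ∈ PP V, (Gs S r p).card = 0 := by
      apply Finset.sum_eq_zero
      intro p hp
      rw [Finset.card_eq_zero]
      unfold Gs
      rw [Finset.filter_eq_empty_iff]
      rintro f _ ⟨hf, -⟩
      exact hS (hf.isTree (mem_PP.1 hp))
    rw [this]
    simp
  rw [h4]
  apply Finset.sum_congr rfl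
  intro S _
  rw [Finset.sum_comm]
  apply Finset.sum_congr rfl
  intro r _
  rw [Nat.cast_sum, Finset.mul_sum]
  rw [sum_PP (fun T v => (fx S r : ℝ) * ((Gs S r (T, v)).card : ℝ))]

end Pool.Agent.R391.FV
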