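import Pool.Agent.R391.FV.Emb

set_option autoImplicit false
set_option linter.unusedSectionVars false

/-! # Moved vertices and twin branches -/

namespace Pool.Agent.R391.FV

open Finset

variable {V : Type} [Fintype V] [DecidableEq V] {m : ℕ}

variable {T : SimpleGraph V}

lemma descend (hT : T.IsTree) (σ : T ≃g T) {v c : V} (hv : σ v ≠ v) (hc : σ c = c) :
    ∃ s u B, Branch T s u B ∧ v ∈ B ∧ σ s = s ∧ σ u ≠ u ∧
      ∀ s' u' B', Branch T s' u' B' → v ∈ B' → σ s' = s' → B.card ≤ B'.card := by
  classical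
  have hex : ∃ k, ∃ s u B, Branch T s u B ∧ v ∈ B ∧ σ s = s ∧ B.card = k := by
    have hcv : c ≠ v := by
      rintro rfl
      exact hv hc
    obtain ⟨u, B, hB, hvB⟩ := exists_branch hT hcv
    exact ⟨B.card, c, u, B, hB, hvB, hc, rfl⟩
  obtain ⟨s, u, B, hB, hvB, hs, hcard⟩ := Nat.find_spec hex
  have hmin : ∀ s' u' B', Branch T s' u' B' → v ∈ B' → σ s' = s' → B.card ≤ B'.card := by
    intro s' u' B' h1 h2 h3
    rw [hcard]
    exact Nat.find_min' hex ⟨s', u', B', h1, h2, h3, rfl⟩
  refine ⟨s, u, B, hB, hvB, hs, ?_, hmin⟩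
  intro hu
  have huv : u ≠ v := by
    rintro rfl
    exact hv hu
  obtain ⟨w, C, hC, hvC⟩ := exists_branch hT huv
  have h1 : C ⊆ B := hC.subset' hT.connected hB hvC hvB hC.not_mem
  have h2 : C.card < B.card := by
    apply card_lt_card
    refine ⟨h1, fun h => hC.not_mem (h hB.mem)⟩
  have h3 := hmin u w C hC hvC hu
  omega

/-- a tree without a branch of half of the vertices has a vertex fixed by all automorphisms -/
lemma centroid (hT : T.IsTree) (hh : ∀ s u B, Branch T s u B → 2 * B.card ≠ Fintype.card V) :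
    ∃ c, ∀ σ : T ≃g T, σ c = c := by
  classical
  have h1 : ∃ c, ∀ u B, Branch T c u B → 2 * B.card < Fintype.card V := by
    by_cases hex : ∃ k, ∃ s u B, Branch T s u B ∧ Fintype.card V < 2 * B.card ∧ B.card = k
    · obtain ⟨s, u, B, hB, hlt, hcard⟩ := Nat.find_spec hex
      have hmin : ∀ s' u' B', Branch T s' u' B' → Fintype.card V < 2 * B'.card →
          B.card ≤ B'.card := by
        intro s' u' B' h1 h2
        rw [hcard]
        exact Nat.find_min' hex ⟨s', u', B', h1, h2, rfl⟩
      refine ⟨u, fun w C hC => ?_⟩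
      by_contra hcon
      have h2 : Fintype.card V < 2 * C.card := by
        have := hh u w C hC
        omega
      have h3 := hmin u w C hC h2
      -- the branches `B`, `C` intersect as both have more than half of the vertices
      have h4 : ¬ Disjoint B C := by
        intro hd
        have h5 := card_union_of_disjoint hd
        have h6 := card_le_univ (B ∪ C)
        omega
      rw [Finset.not_disjoint_iff] at h4
      obtain ⟨z, hzB, hzC⟩ := h4
      have h5 : C ⊆ B := hC.subset' hT.connected hB hzC hzB hC.not_mem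
      have h6 : C.card < B.card := by
        apply card_lt_card
        refine ⟨h5, fun h => hC.not_mem (h hB.mem)⟩
      omega
    · obtain ⟨c⟩ := hT.connected.nonempty
      refine ⟨c, fun u B hB => ?_⟩
      by_contra hcon
      have := hh c u B hB
      exact hex ⟨_, c, u, B, hB, by omega, rfl⟩
  obtain ⟨c, hc⟩ := h1
  refine ⟨c, fun σ => ?_⟩
  by_contra hne
  obtain ⟨u, B, hB, hcB⟩ := exists_branch hT (Ne.symm hne)
  obtain ⟨u', B', hB', hcB'⟩ := exists_branch hT hne
  have h1 := hc u B hB
  have h2 : 2 * B'.card < Fintype.card V := by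
    have e1 : Branch T c (σ.symm u') (B'.image σ.symm) := by
      obtain ⟨S, r, f, hf, him, hr⟩ := hB'.exists_isBr rfl
      have h3 := (hf.map σ.symm).branch
      have h4 : univ.image (fun a => σ.symm (f a)) = (univ.image f).image σ.symm := by
        rw [image_image]
        rfl
      rw [him] at h4
      rw [h4, hr, σ.symm_apply_apply] at h3
      exact h3
    have h3 := hc _ _ e1
    rwa [card_image_of_injective _ σ.symm.injective] at h3
  have h3 : ∃ o, o ∉ B ∪ B' := by
    by_contra hcon
    push Not at hcon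
    have h4 : (univ : Finset V) ⊆ B ∪ B' := fun x _ => hcon x
    have h5 := card_le_card h4
    have h6 := card_union_le B B'
    rw [card_univ] at h5
    omega
  obtain ⟨o, ho⟩ := h3
  obtain ⟨a, b, ha, hb, hab⟩ := cross_edge hT.connected (fun w => w ∈ B ∪ B') (a := u) (b := o)
    (mem_union_left _ hB.mem) ho
  rw [mem_union, not_or] at hb
  rcases mem_union.1 ha with ha | ha
  · have := (hB.cross a ha b hb.1 hab).2
    exact hb.2 (this ▸ hcB')
  · have := (hB'.cross a ha b hb.2 hab).2
    exact hb.1 (this ▸ hcB)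

/-- if `σ` fixes `s` and moves the root of a branch at `s`, the branch is twin -/
lemma twin_of_aut {s u : V} {B : Finset V} (hB : Branch T s u B) (σ : T ≃g T)
    (hs : σ s = s) (hu : σ u ≠ u) :
    ∃ (S : SimpleGraph (Fin B.card)) (r : Fin B.card) (f : Fin B.card → V),
      IsBr T s S r f ∧ Tw T s S r f ∧ univ.image f = B := by
  obtain ⟨S, r, f, hf, him, hr⟩ := hB.exists_isBr rfl
  refine ⟨S, r, f, hf, ⟨fun a => σ (f a), ?_, ?_⟩, him⟩
  · have := hf.map σ
    rwa [hs] at this
  · intro h
    have h1 := (hf.map σ).branch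
    rw [h, hs] at h1
    have h2 := (h1.unique hf.branch).1
    rw [hr] at h2
    exact hu h2

/-- a moved vertex is in a twin branch -/
lemma moved_twin (hT : T.IsTree) (hh : ∀ s u B, Branch T s u B → 2 * B.card ≠ Fintype.card V)
    (σ : T ≃g T) {v : V} (hv : σ v ≠ v) :
    ∃ (m : ℕ) (S : SimpleGraph (Fin m)) (r : Fin m) (s : V) (f : Fin m → V) (w : Fin m),
      IsBr T s S r f ∧ Tw T s S r f ∧ f w = v := by
  obtain ⟨c, hc⟩ := centroid hT hh
  obtain ⟨s, u, B, hB, hvB, hs, hu, -⟩ := descend hT σ hv (hc σ)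
  obtain ⟨S, r, f, hf, htw, him⟩ := twin_of_aut hB σ hs hu
  rw [← him] at hvB
  obtain ⟨w, hw⟩ := mem_im.1 hvB
  exact ⟨_, S, r, s, f, w, hf, htw, hw⟩

/-- a vertex in a twin branch is in a twin branch whose automorphisms do not move it -/
lemma twin_rigid (hT : T.IsTree) {v : V} (h : ∃ (m : ℕ) (S : SimpleGraph (Fin m)) (r : Fin m)
      (s : V) (f : Fin m → V) (w : Fin m), IsBr T s S r f ∧ Tw T s S r f ∧ f w = v) :
    ∃ (m : ℕ) (S : SimpleGraph (Fin m)) (r : Fin m) (s : V) (f : Fin m → V) (w : Fin m),
      IsBr T s S r f ∧ Tw T s S r f ∧ Rig S r w ∧ f w = v := by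
  classical
  obtain ⟨S, r, s, f, w, hf, htw, hw⟩ := Nat.find_spec h
  have hmin : ∀ k, (∃ (S : SimpleGraph (Fin k)) (r : Fin k) (s : V) (f : Fin k → V) (w : Fin k),
      IsBr T s S r f ∧ Tw T s S r f ∧ f w = v) → Nat.find h ≤ k := fun k hk => Nat.find_min' h hk
  refine ⟨_, S, r, s, f, w, hf, htw, ?_, hw⟩
  intro α hα
  by_contra hαw
  obtain ⟨σ, hσ1, hσ2⟩ := exists_extend hf α hα
  have hσv : σ v ≠ v := by
    rw [← hw, hσ1]
    exact fun h => hαw (hf.inj h)
  have hσs : σ s = s := hσ2 s hf.avoid
  have hσr : σ (f r) = f r := by rw [hσ1, hα]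
  obtain ⟨s', u', B', hB', hvB', hs', hu', hm'⟩ := descend hT σ hσv hσs
  obtain ⟨S', r', f', hf', htw', him'⟩ := twin_of_aut hB' σ hs' hu'
  have hvB'' := hvB'
  rw [← him'] at hvB''
  obtain ⟨w', hw'⟩ := mem_im.1 hvB''
  have h1 := hmin _ ⟨S', r', s', f', w', hf', htw', hw'⟩
  have hvB : v ∈ univ.image f := mem_im.2 ⟨w, hw⟩
  have h2 := hm' s (f r) (univ.image f) hf.branch hvB hσs
  rw [hf.card] at h2
  obtain ⟨g, hg, hgf⟩ := htw
  obtain ⟨g', hg', hgf'⟩ := htw'
  have h3 := hf.size hT.connected hg hgf
  have h4 := hf'.size hT.connected hg' hgf'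
  have h5 : ∃ o, o ∉ univ.image f ∪ B' := by
    by_contra hcon
    push Not at hcon
    have h4 : (univ : Finset V) ⊆ univ.image f ∪ B' := fun x _ => hcon x
    have h5 := card_le_card h4
    have h6 := card_union_le (univ.image f) B'
    rw [card_univ] at h5
    rw [hf.card] at h6
    omega
  obtain ⟨o, ho⟩ := h5
  rw [mem_union, not_or] at ho
  have h6 : univ.image f = B' := by
    rcases hf.branch.laminar hT.connected hB' hvB hvB' ho.1 ho.2 with h | h
    · apply eq_of_subset_of_card_le h
      rw [hf.card]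
      exact h2
    · symm
      apply eq_of_subset_of_card_le h
      rw [hf.card]
      exact h1
  rw [← h6] at hB'
  have h7 := (hB'.unique hf.branch).1
  rw [h7] at hu'
  exact hu' hσr

/-- vertices in twin branches are moved -/
lemma twin_moved (hT : T.Connected) {S : SimpleGraph (Fin m)} {r : Fin m}
    {s : V} {f : Fin m → V} (hf : IsBr T s S r f) (htw : Tw T s S r f) (w : Fin m) :
    ∃ σ : T ≃g T, σ (f w) ≠ f w := by
  obtain ⟨g, hg, hgf⟩ := htw
  obtain ⟨σ, h1, -, -⟩ := exists_swap hT hf hg hgf
  refine ⟨σ, ?_⟩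
  rw [h1]
  exact fun h => hf.disj hT hg hgf w w h.symm

lemma uniq_aux (hT : T.Connected) {m m' : ℕ} {S : SimpleGraph (Fin m)} {r : Fin m}
    {s : V} {f : Fin m → V} {w : Fin m} {S' : SimpleGraph (Fin m')} {r' : Fin m'}
    {s' : V} {f' : Fin m' → V} {w' : Fin m'}
    (hf : IsBr T s S r f) (htw : Tw T s S r f) (hrig : Rig S r w)
    (hf' : IsBr T s' S' r' f') (htw' : Tw T s' S' r' f') (hw : f w = f' w')
    (hsub : univ.image f' ⊆ univ.image f) : univ.image f ⊆ univ.image f' := by
  by_contra hcon
  have hlt : m' < m := by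
    have h1 : (univ.image f').card < (univ.image f).card := card_lt_card ⟨hsub, hcon⟩
    rwa [hf.card, hf'.card] at h1
  have hw1 : f w ∈ univ.image f := im_self f w
  have hw2 : f w ∈ univ.image f' := by rw [hw]; exact im_self f' w'
  -- the base point of the small branch is in the large one
  have hs' : s' ∈ univ.image f := by
    by_contra hs'
    exact hcon (hf.branch.subset hT hf'.branch hw1 hw2 hs')
  obtain ⟨g, hg, hgf⟩ := htw
  obtain ⟨g', hg', hgf'⟩ := htw'
  have hsz := hf.size hT hg hgf
  have hsz' := hf'.size hT hg' hgf'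
  have hd' := hf'.disj hT hg' hgf'
  by_cases hsub2 : univ.image g' ⊆ univ.image f
  · obtain ⟨σ, h1, h2, h3⟩ := exists_swap hT hf' hg' hgf'
    have hrt : ∀ {h : Fin m' → V}, IsBr T s' S' r' h → univ.image h ⊆ univ.image f →
        ∀ a, h a ≠ f r := by
      intro h hh hsubh a ha
      have h4 : f r ∈ univ.image h := by rw [← ha]; exact im_self h a
      have h5 : s ∉ univ.image h := fun hs => hf.branch.not_mem (hsubh hs)
      have h6 := (hh.branch.cross _ h4 s h5 hf.branch.adj).2
      exact hf.branch.not_mem (h6 ▸ hs')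
    have hr1 : σ (f r) = f r := h3 _ (hrt hf' hsub) (hrt hg' hsub2)
    have hmem : ∀ a, ∃ b, f b = σ (f a) := by
      intro a
      by_cases ha : ∃ b, f' b = f a
      · obtain ⟨b, hb⟩ := ha
        rw [← hb, h1]
        exact mem_im.1 (hsub2 (im_self g' b))
      · by_cases ha' : ∃ b, g' b = f a
        · obtain ⟨b, hb⟩ := ha'
          rw [← hb, h2]
          exact mem_im.1 (hsub (im_self f' b))
        · push Not at ha ha'
          exact ⟨a, (h3 _ ha ha').symm⟩
    obtain ⟨α, hα⟩ := exists_restrict hf σ hmem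
    have hαr : α r = r := hf.inj (by rw [hα, hr1])
    have h5 := hrig α hαr
    have h6 := hα w
    rw [h5, hw, h1] at h6
    exact hd' w' w' h6
  · -- the twin of the small branch is outside of the large one
    have hdj : ∀ z, z ∈ univ.image f → z ∉ univ.image g' := by
      intro z hz hz'
      have h5 : ∃ o, o ∉ univ.image f ∪ univ.image g' := by
        by_contra hcon
        push Not at hcon
        have h4 : (univ : Finset V) ⊆ univ.image f ∪ univ.image g' := fun x _ => hcon x
        have h5 := card_le_card h4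
        have h6 := card_union_le (univ.image f) (univ.image g')
        rw [card_univ] at h5
        rw [hf.card, hg'.card] at h6
        omega
      obtain ⟨o, ho⟩ := h5
      rw [mem_union, not_or] at ho
      rcases hf.branch.laminar hT hg'.branch hz hz' ho.1 ho.2 with h | h
      · have := card_le_card h
        rw [hf.card, hg'.card] at this
        omega
      · exact hsub2 h
    have h1 : g' r' ∉ univ.image f := fun h => hdj _ h (im_self g' r')
    have h2 : T.Adj s' (g' r') := hg'.branch.adj.symm
    obtain ⟨h3, h4⟩ := hf.branch.cross _ hs' _ h1 h2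
    -- `s' = f r`, `g' r' = s`
    have h5 : g r ∈ univ.image g' := by
      by_contra h6
      have h7 : T.Adj (g' r') (g r) := by
        rw [h4]
        exact hg.branch.adj.symm
      have h8 := (hg'.branch.cross _ (im_self g' r') _ h6 h7).2
      rw [h3] at h8
      exact hf.disj hT hg hgf r r h8.symm
    have h6 : univ.image g ⊆ univ.image g' := by
      apply hg.branch.subset hT hg'.branch (im_self g r) h5
      rw [h3]
      intro h7
      obtain ⟨b, hb⟩ := mem_im.1 h7
      exact hf.disj hT hg hgf r b hb.symm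
    have h7 := card_le_card h6
    rw [hg.card, hg'.card] at h7
    omega

lemma uniq (hT : T.Connected) {m m' : ℕ} {S : SimpleGraph (Fin m)} {r : Fin m}
    {s : V} {f : Fin m → V} {w : Fin m} {S' : SimpleGraph (Fin m')} {r' : Fin m'}
    {s' : V} {f' : Fin m' → V} {w' : Fin m'}
    (hf : IsBr T s S r f) (htw : Tw T s S r f) (hrig : Rig S r w)
    (hf' : IsBr T s' S' r' f') (htw' : Tw T s' S' r' f') (hrig' : Rig S' r' w')
    (hw : f w = f' w') : univ.image f = univ.image f' := by
  have hw1 : f w ∈ univ.image f := im_self f w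
  have hw2 : f w ∈ univ.image f' := by rw [hw]; exact im_self f' w'
  have h5 : ∃ o, o ∉ univ.image f ∪ univ.image f' := by
    obtain ⟨g, hg, hgf⟩ := htw
    obtain ⟨g', hg', hgf'⟩ := htw'
    have hsz := hf.size hT hg hgf
    have hsz' := hf'.size hT hg' hgf'
    by_contra hcon
    push Not at hcon
    have h4 : (univ : Finset V) ⊆ univ.image f ∪ univ.image f' := fun x _ => hcon x
    have h5 := card_le_card h4
    have h6 := card_union_le (univ.image f) (univ.image f')
    rw [card_univ] at h5
    rw [hf.card, hf'.card] at h6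
    omega
  obtain ⟨o, ho⟩ := h5
  rw [mem_union, not_or] at ho
  rcases hf.branch.laminar hT hf'.branch hw1 hw2 ho.1 ho.2 with h | h
  · exact Subset.antisymm h (uniq_aux hT hf' htw' hrig' hf htw hw.symm h)
  · exact Subset.antisymm (uniq_aux hT hf htw hrig hf' htw' hw h) h

end Pool.Agent.R391.FV
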